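import Pool.Agent.Lib.MP_be0380_co.T.AlphaB
import Pool.Agent.Lib.MP_be0380_co.G.Machine

/-!
# be0380, Section 3: there is no bad level of type alpha
-/

set_option autoImplicit false

open Finset

namespace Pool.MPbe0380.Gb

theorem al_nat (k : ℕ) (hk : 3000000 ≤ k) : 1 ≤ k / 3000000 ∧ (24000 * (k / 3000000) + 2) * 100 ≤ k ∧
    240 * (k / 3000000) + k ≤ 2 ^ (30 * (k / 3000000)) := by
  set j := k / 3000000 with hj
  have h1 : 1 ≤ j := by omega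
  have h2 : k < 3000000 * (j + 1) := by omega
  refine ⟨h1, by omega, ?_⟩
  have h3 : 2 ^ 30 * j ≤ 2 ^ (30 * j) := by
    rw [pow_mul]
    obtain ⟨i, hi⟩ : ∃ i, j = i + 1 := ⟨j - 1, by omega⟩
    rw [hi, pow_succ, mul_comm]
    refine Nat.mul_le_mul_right _ ?_
    have h4 : i + 1 ≤ 2 ^ i := Nat.lt_two_pow_self
    exact h4.trans (Nat.pow_le_pow_left (by norm_num) i)
  refine le_trans ?_ h3
  have : (2 : ℕ) ^ 30 = 1073741824 := by norm_num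
  rw [this]
  omega

theorem al_two_pow_exp (n : ℕ) : (2 : ℝ) ^ n ≤ Real.exp n := by
  have h := Real.add_one_le_exp (1 : ℝ)
  calc (2 : ℝ) ^ n ≤ (Real.exp 1) ^ n := pow_le_pow_left₀ (by norm_num) (by linarith) n
    _ = Real.exp n := by rw [← Real.exp_nat_mul, mul_one]

theorem al_le_root {a K : ℝ} (ha : 0 ≤ a) (h : a ^ 100 ≤ K) : a ≤ K ^ (1 / 100 : ℝ) := by
  have h1 : (a ^ 100) ^ (((100 : ℕ) : ℝ)⁻¹) = a := Real.pow_rpow_inv_natCast ha (by norm_num)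
  have h2 : (((100 : ℕ) : ℝ)⁻¹) = (1 / 100 : ℝ) := by norm_num
  rw [h2] at h1
  calc a = (a ^ 100) ^ (1 / 100 : ℝ) := h1.symm
    _ ≤ K ^ (1 / 100 : ℝ) := Real.rpow_le_rpow (by positivity) h (by norm_num)

theorem al_kappa {k j : ℕ} (h : (24000 * j + 2) * 100 ≤ k) :
    4 * (2 : ℝ) ^ (24000 * j) ≤ ((2 : ℝ) ^ k) ^ (1 / 100 : ℝ) := by
  have e : 4 * (2 : ℝ) ^ (24000 * j) = (2 : ℝ) ^ (24000 * j + 2) := by
    rw [pow_add, mul_comm]
    congr 1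
    norm_num
  rw [e]
  refine al_le_root (by positivity) ?_
  rw [← pow_mul]
  exact pow_le_pow_right₀ (by norm_num) h

theorem al_B {j : ℕ} {B : ℕ} (hB : B = 2 ^ j) : ((B : ℝ) ^ 2400) ^ 10 = (2 : ℝ) ^ (24000 * j) := by
  rw [hB]
  push_cast
  rw [← pow_mul, ← pow_mul]
  congr 1
  omega

theorem al_small {k j : ℕ} {B : ℕ} {L : ℝ} (hB : B = 2 ^ j) (h : 240 * j + k ≤ 2 ^ (30 * j))
    (hKL : 1 ≤ 2 ^ k * L) : Real.exp (-(B : ℝ) ^ 30) * (B : ℝ) ^ 240 ≤ L := by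
  have hK0 : (0 : ℝ) < 2 ^ k := by positivity
  have hinv : (2 ^ k : ℝ)⁻¹ ≤ L := by
    rw [inv_le_iff_one_le_mul₀ hK0, mul_comm]
    exact hKL
  refine le_trans ?_ hinv
  have e3 : (B : ℝ) ^ 30 = ((2 ^ (30 * j) : ℕ) : ℝ) := by
    rw [hB]
    push_cast
    rw [← pow_mul, mul_comm]
  have e4 : (B : ℝ) ^ 240 = 2 ^ (240 * j) := by
    rw [hB]
    push_cast
    rw [← pow_mul, mul_comm]
  rw [e3, e4, le_inv_comm₀ (by positivity) hK0, mul_inv, Real.exp_neg, inv_inv]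
  rw [← div_eq_mul_inv, le_div_iff₀ (by positivity), ← pow_add]
  refine (al_two_pow_exp _).trans (Real.exp_le_exp.mpr ?_)
  have : k + 240 * j ≤ 2 ^ (30 * j) := by omega
  exact_mod_cast this

theorem al_k {k : ℕ} (hk : 3000000 ≤ k) : 80000000 * ((k : ℝ) + 1) ≤ 2 ^ k := by
  have c1 : 80000000 * (k + 1) ≤ 2 ^ k := by
    obtain ⟨i, hi⟩ : ∃ i, k = i + 30 := ⟨k - 30, by omega⟩
    rw [hi, pow_add]
    have c2 : i + 1 ≤ 2 ^ i := Nat.lt_two_pow_self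
    have c3 : (2 : ℕ) ^ 30 = 1073741824 := by norm_num
    rw [c3]
    calc 80000000 * (i + 30 + 1) ≤ (i + 1) * 1073741824 := by omega
      _ ≤ 2 ^ i * 1073741824 := Nat.mul_le_mul_right _ c2
  exact_mod_cast c1

theorem al_Wle {k : ℕ} {L κ : ℝ} (hL : 0 < L) (h1 : 400000 ≤ κ) (h3 : κ ≤ 2 ^ k * L)
    (hk : 80000000 * ((k : ℝ) + 1) ≤ 2 ^ k) :
    4 * Real.log (2 / L) / (1 / 10 ^ 6) + 2 / ((1 / 100) ^ 2 * L) ≤ 2 ^ k / 10 := by
  have hK0 : (0 : ℝ) < 2 ^ k := by positivity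
  have hKL : 1 ≤ 2 ^ k * L := by linarith
  have hinvL : 1 / L ≤ 2 ^ k := by
    rw [div_le_iff₀ hL]; exact hKL
  have a1 : Real.log (2 / L) ≤ k + 1 := by
    have b1 : 2 / L ≤ 2 ^ (k + 1) := by
      rw [pow_succ]
      have : 2 / L = (1 / L) * 2 := by ring
      rw [this]
      exact mul_le_mul_of_nonneg_right hinvL (by norm_num)
    have b2 : Real.log (2 / L) ≤ Real.log (2 ^ (k + 1)) :=
      Real.log_le_log (by positivity) b1
    rw [Real.log_pow] at b2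
    push_cast at b2
    have b3 : Real.log 2 ≤ 1 := by
      have := Real.log_two_lt_d9
      linarith
    have b4 : (0 : ℝ) ≤ (k : ℝ) + 1 := by positivity
    calc Real.log (2 / L) ≤ ((k : ℝ) + 1) * Real.log 2 := b2
      _ ≤ ((k : ℝ) + 1) * 1 := mul_le_mul_of_nonneg_left b3 b4
      _ = _ := mul_one _
  have a3 : 1 / L ≤ 2 ^ k / 400000 := by
    rw [div_le_div_iff₀ hL (by norm_num)]
    linarith
  have e1 : 2 / ((1 / 100) ^ 2 * L) = 20000 * (1 / L) := by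
    field_simp
    norm_num
  have e2 : 4 * Real.log (2 / L) / (1 / 10 ^ 6) = 4000000 * Real.log (2 / L) := by
    ring
  rw [e1, e2]
  linarith

variable {p : ℕ} [Fact p.Prime]

theorem al_kL (v : BLev p) {κ : ℝ} (hα : κ * √(v.A.card : ℝ) ≤ v.D) : κ ≤ 2 ^ v.k * v.L := by
  have hn : (0 : ℝ) < √(v.A.card : ℝ) := by
    have := v.two_le
    exact Real.sqrt_pos.mpr (by exact_mod_cast (by omega : 0 < v.A.card))
  have hD : v.D = 2 ^ v.k * √(v.A.card : ℝ) * v.L := by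
    unfold Lev.D Lev.m
    rw [v.m_eq]
  rw [hD] at hα
  have : κ * √(v.A.card : ℝ) ≤ (2 ^ v.k * v.L) * √(v.A.card : ℝ) := by
    refine hα.trans (le_of_eq ?_)
    ring
  exact le_of_mul_le_mul_right this hn

/-- Proposition 3 -/
theorem no_alpha : ∃ k2 : ℕ, ∀ (p : ℕ) [Fact p.Prime] (v : BLev p), k2 ≤ v.k →
    ((2 : ℝ) ^ v.k) ^ (1 / 100 : ℝ) * √(v.A.card : ℝ) ≤ v.D → False := by
  classical
  refine ⟨3000000, ?_⟩
  intro p _ v hk hα
  obtain ⟨j, hj1, hj2, hj3⟩ : ∃ j, 1 ≤ j ∧ (24000 * j + 2) * 100 ≤ v.k ∧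
      240 * j + v.k ≤ 2 ^ (30 * j) := ⟨_, al_nat v.k hk⟩
  obtain ⟨B, hBdef⟩ : ∃ B : ℕ, B = 2 ^ j := ⟨_, rfl⟩
  have hB2 : 2 ≤ B := by
    rw [hBdef]
    calc 2 = 2 ^ 1 := rfl
      _ ≤ 2 ^ j := Nat.pow_le_pow_right (by norm_num) hj1
  have n2 : 4 * (((B : ℝ)) ^ 2400) ^ 10 ≤ ((2 : ℝ) ^ v.k) ^ (1 / 100 : ℝ) := by
    rw [al_B hBdef]
    exact al_kappa hj2
  obtain ⟨κ, hκ⟩ : ∃ κ : ℝ, κ = ((2 : ℝ) ^ v.k) ^ (1 / 100 : ℝ) := ⟨_, rfl⟩
  rw [← hκ] at hα n2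
  have hBR : (2 : ℝ) ≤ (B : ℝ) := by exact_mod_cast hB2
  have hBR1 : (1 : ℝ) ≤ (B : ℝ) := by linarith
  have n1 : 400000 ≤ κ := by
    refine le_trans ?_ n2
    have b1 : (2 : ℝ) ^ 24 ≤ (B : ℝ) ^ 24 := pow_le_pow_left₀ (by norm_num) hBR 24
    have b2 : (B : ℝ) ^ 24 ≤ ((B : ℝ) ^ 2400) ^ 10 := by
      rw [← pow_mul]
      exact pow_le_pow_right₀ hBR1 (by norm_num)
    have b3 : (2 : ℝ) ^ 24 = 16777216 := by norm_num
    linarith
  have n3 := al_kL v hα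
  have n4 : v.alW ≤ 2 ^ v.k / 10 := al_Wle v.L_pos n1 n3 (al_k hk)
  have n5 : Real.exp (-(B : ℝ) ^ 30) * (B : ℝ) ^ 240 ≤ v.L := al_small hBdef hj3 (by linarith)
  have hκ0 : 0 < κ := by linarith
  have hL := v.L_pos
  have hm := v.m_pos
  have hD0 : 0 < v.D := mul_pos hm hL
  have hn : (0 : ℝ) < √(v.A.card : ℝ) := by
    have := v.two_le
    exact Real.sqrt_pos.mpr (by exact_mod_cast (by omega : 0 < v.A.card))
  have hnn : √(v.A.card : ℝ) * √(v.A.card : ℝ) = (v.A.card : ℝ) :=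
    Real.mul_self_sqrt (Nat.cast_nonneg _)
  have hK0 : (0 : ℝ) < 2 ^ v.k := by positivity
  have hmeq : v.m = 2 ^ v.k * √(v.A.card : ℝ) := v.m_eq
  have hW0 : 0 ≤ v.alW := by
    unfold Lev.alW
    have : 0 ≤ Real.log (2 / v.L) := by
      apply Real.log_nonneg
      rw [le_div_iff₀ hL]
      have := v.L_le
      have h8 : (1 : ℝ) / 10 ^ 8 ≤ 1 := by norm_num
      linarith
    positivity
  have hJ : ∀ x, 0 ≤ v.J x := v.J_nonneg
  set h : ℝ := v.D / κ with hh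
  have hh0 : 0 < h := div_pos hD0 hκ0
  set G0 : Finset (ZMod p) := v.supp.filter (fun x => ((v.alX x).card : ℝ) ≤ h) with hG0
  have hG0s : G0 ⊆ v.supp := filter_subset _ _
  have hG0card : ∀ x ∈ G0, ((v.alX x).card : ℝ) ≤ h := fun x hx => (mem_filter.1 hx).2
  -- the mass of `G0`
  have hbad : (∑ x ∈ v.supp.filter (fun x => h < ((v.alX x).card : ℝ)), v.J x) ≤ v.m / 10 := by
    have h1 := v.al_mass h
    have h2 : (v.A.card : ℝ) * v.alW ≤ v.m / 10 * h := by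
      have h3 : κ * √(v.A.card : ℝ) ≤ v.D := hα
      have h4 : √(v.A.card : ℝ) ≤ h := by
        rw [hh, le_div_iff₀ hκ0, mul_comm]
        exact h3
      calc (v.A.card : ℝ) * v.alW ≤ (v.A.card : ℝ) * (2 ^ v.k / 10) :=
            mul_le_mul_of_nonneg_left n4 (Nat.cast_nonneg _)
        _ = (√(v.A.card : ℝ) * √(v.A.card : ℝ)) * (2 ^ v.k / 10) := by rw [hnn]
        _ = v.m / 10 * √(v.A.card : ℝ) := by
            rw [hmeq]
            ring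
        _ ≤ v.m / 10 * h := mul_le_mul_of_nonneg_left h4 (by
            have : 0 < v.m := hm
            positivity)
    exact le_of_mul_le_mul_right (h1.trans h2) hh0
  have hmass : 9 / 10 * v.m ≤ ∑ x ∈ G0, v.J x := by
    have h1 := sum_filter_add_sum_filter_not v.supp (fun x => ((v.alX x).card : ℝ) ≤ h) v.J
    rw [v.al_sum_supp] at h1
    have h2 : v.supp.filter (fun x => ¬ ((v.alX x).card : ℝ) ≤ h) =
        v.supp.filter (fun x => h < ((v.alX x).card : ℝ)) :=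
      filter_congr fun x _ => not_le
    rw [h2] at h1
    linarith
  have hmpos : 0 < v.m := hm
  set m0 := ∑ x ∈ G0, v.J x with hm0
  set Pr : Finset (ZMod p × ZMod p) := (G0 ×ˢ G0).filter
    (fun e => ∀ c ∈ v.A, v.Feel e.1 c → ¬ v.Feel e.2 c) with hPr
  have hPrG : ∀ x y, (x, y) ∈ Pr → x ∈ G0 ∧ y ∈ G0 ∧ ∀ c ∈ v.A, v.Feel x c → ¬ v.Feel y c := by
    intro x y hxy
    obtain ⟨h1, h2⟩ := mem_filter.1 hxy
    exact ⟨(mem_product.1 h1).1, (mem_product.1 h1).2, h2⟩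
  -- the knowledges (S6)
  have base : ∀ x ∈ G0, ∃ F, v.cost F * ((B : ℝ) ^ 2400) ^ 9 ≤ v.D ∧
      ∀ c ∈ v.alX x, ∀ c' ∈ v.alX x, Lev.N F (c - c') ≤ (1 / 2 : ℝ) ^ (B ^ 2400) := by
    intro x hx
    obtain ⟨F, h1, h2⟩ := v.al_base x (B ^ 2400)
    refine ⟨F, ?_, h2⟩
    set b : ℝ := (B : ℝ) ^ 2400 with hb
    have hb1 : 1 ≤ b := one_le_pow₀ hBR1
    have hb16 : 16 ≤ b := by
      calc (16 : ℝ) = 2 ^ 4 := by norm_num
        _ ≤ (B : ℝ) ^ 4 := pow_le_pow_left₀ (by norm_num) hBR 4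
        _ ≤ b := pow_le_pow_right₀ hBR1 (by norm_num)
    have h3 : v.cost F ≤ h * (b + 3) := by
      refine h1.trans ?_
      push_cast
      exact mul_le_mul_of_nonneg_right (hG0card x hx) (by positivity)
    have hb0 : 0 < b := by linarith
    have h4 : (b + 3) * b ^ 9 ≤ b ^ 10 * (2 : ℝ) := by
      have e1 : b ^ 10 * (2 : ℝ) = (b * 2) * b ^ 9 := by ring
      rw [e1]
      exact mul_le_mul_of_nonneg_right (by linarith) (by positivity)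
    have h5 : 4 * b ^ 10 ≤ κ := n2
    calc v.cost F * b ^ 9 ≤ h * (b + 3) * b ^ 9 := mul_le_mul_of_nonneg_right h3 (by positivity)
      _ = h * ((b + 3) * b ^ 9) := by ring
      _ ≤ h * (b ^ 10 * 2) := mul_le_mul_of_nonneg_left h4 hh0.le
      _ ≤ h * κ := mul_le_mul_of_nonneg_left (by linarith [pow_pos hb0 10]) hh0.le
      _ = v.D := by rw [hh, div_mul_cancel₀ _ hκ0.ne']
  have hB240 : ∀ g, v.dist g * (B : ℝ) ^ 240 ≤ 1 → v.dist g ≤ 1 / 4000 := by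
    intro g hg
    have h1 : (4000 : ℝ) ≤ (B : ℝ) ^ 240 := by
      calc (4000 : ℝ) ≤ 2 ^ 12 := by norm_num
        _ ≤ (B : ℝ) ^ 12 := pow_le_pow_left₀ (by norm_num) hBR 12
        _ ≤ (B : ℝ) ^ 240 := pow_le_pow_right₀ hBR1 (by norm_num)
    have h2 : 0 ≤ v.dist g := Real.sqrt_nonneg _
    rw [le_div_iff₀ (by norm_num)]
    exact (mul_le_mul_of_nonneg_left h1 h2).trans hg
  have hself : ∀ x ∈ G0, x ∈ v.alX x := by
    intro x hx
    rw [v.al_mem_X, sub_self, v.dist_zero]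
    exact ⟨(v.al_mem_supp (hG0s hx)).1, by norm_num⟩
  refine gibbs_machine v.toLev B h G0 v.alX Pr hB2 n5 hh0 ?_ hG0s ?_ ?_ hG0card ?_ base ?_ ?_ ?_ ?_ ?_
  · -- `h ≤ b_0^10 D`
    have h1 : (1 : ℝ) ≤ ((B : ℝ) ^ 2400) ^ 10 := one_le_pow₀ (one_le_pow₀ hBR1)
    have h2 : h ≤ v.D := by
      rw [hh, div_le_iff₀ hκ0]
      have : (1 : ℝ) ≤ κ := by linarith
      exact le_mul_of_one_le_right hD0.le this
    exact h2.trans (le_mul_of_one_le_left hD0.le h1)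
  · have : v.m / 3 ≤ 9 / 10 * v.m := by linarith
    exact this.trans hmass
  · intro x _ c hc
    exact (v.al_mem_X.1 hc).1
  · intro x hx c hc hd
    rw [v.al_mem_X]
    exact ⟨hc, (hB240 _ hd).trans (by norm_num)⟩
  · exact filter_subset _ _
  · intro x y hxy
    obtain ⟨hx, hy, hd⟩ := hPrG x y hxy
    rw [hPr, mem_filter]
    exact ⟨mem_product.2 ⟨hy, hx⟩, fun c hc h1 h2 => hd c hc h2 h1⟩
  · -- the weight of the pairs
    have h1 := sum_filter_add_sum_filter_not (G0 ×ˢ G0)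
      (fun e => ∀ c ∈ v.A, v.Feel e.1 c → ¬ v.Feel e.2 c) (fun e => v.J e.1 * v.J e.2)
    have h2 : ∑ e ∈ G0 ×ˢ G0, v.J e.1 * v.J e.2 = m0 ^ 2 := by
      rw [sum_product, sq, hm0, sum_mul_sum]
    have h3 := v.al_pairs G0 hG0s hW0
    have h4 : (v.A.card : ℝ) * v.alW ^ 2 ≤ v.m ^ 2 / 100 := by
      calc (v.A.card : ℝ) * v.alW ^ 2 ≤ (v.A.card : ℝ) * (2 ^ v.k / 10) ^ 2 :=
            mul_le_mul_of_nonneg_left (pow_le_pow_left₀ hW0 n4 2) (Nat.cast_nonneg _)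
        _ = (√(v.A.card : ℝ) * √(v.A.card : ℝ)) * (2 ^ v.k / 10) ^ 2 := by rw [hnn]
        _ = v.m ^ 2 / 100 := by
            rw [hmeq]
            ring
    have h5 : (9 / 10 * v.m) ^ 2 ≤ m0 ^ 2 := pow_le_pow_left₀ (by positivity) hmass 2
    rw [h2] at h1
    have h6 : 0 ≤ v.m ^ 2 := sq_nonneg _
    linarith
  · -- twins
    intro x y hxy q hq q' hq' h1 h2
    obtain ⟨hx, hy, hd⟩ := hPrG x y hxy
    obtain ⟨z, hz0, hz1, hz2⟩ := v.al_twin (hG0s hx) (hG0s hy) hd hq hq' (hB240 _ h1) (hB240 _ h2)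
    exact ⟨z, hz0, v.al_mem_X.2 hz1, v.al_mem_X.2 hz2⟩
  · -- lifts
    intro x y hxy
    obtain ⟨hx, hy, hd⟩ := hPrG x y hxy
    obtain ⟨F, hF1, hF2⟩ := base x hx
    obtain ⟨F', hF1', hF2'⟩ := base y hy
    have hb16 : (16 : ℝ) ≤ ((B : ℝ) ^ 2400) ^ 9 := by
      rw [← pow_mul]
      calc (16 : ℝ) = 2 ^ 4 := by norm_num
        _ ≤ (B : ℝ) ^ 4 := pow_le_pow_left₀ (by norm_num) hBR 4
        _ ≤ (B : ℝ) ^ (2400 * 9) := pow_le_pow_right₀ hBR1 (by norm_num)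
    have hsmall : (1 / 2 : ℝ) ^ (B ^ 2400) ≤ 1 / 16 := by
      have h1 : 4 ≤ B ^ 2400 := by
        calc 4 = 2 ^ 2 := rfl
          _ ≤ B ^ 2 := Nat.pow_le_pow_left hB2 2
          _ ≤ B ^ 2400 := Nat.pow_le_pow_right (by omega) (by norm_num)
      calc (1 / 2 : ℝ) ^ (B ^ 2400) ≤ (1 / 2 : ℝ) ^ 4 :=
            pow_le_pow_of_le_one (by norm_num) (by norm_num) h1
        _ = 1 / 16 := by norm_num
    have hcost0 : ∀ F : Setoid (ZMod p), v.cost F * ((B : ℝ) ^ 2400) ^ 9 ≤ v.D →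
        v.cost F ≤ v.D / 16 := by
      intro F hF
      have h0 : 0 ≤ v.cost F := cent_nonneg _ (om_pos _) (isLaw_om _).2 F
      rw [le_div_iff₀ (by norm_num)]
      exact (mul_le_mul_of_nonneg_left hb16 h0).trans hF
    refine v.al_lift x y (v.alX x) (v.alX y) (hself x hx) (hself y hy) F F' ?_ ?_ ?_
    · have a1 := hcost0 F hF1
      have a2 := hcost0 F' hF1'
      linarith
    · exact fun c hc c' hc' => (hF2 c hc c' hc').trans hsmall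
    · exact fun c hc c' hc' => (hF2' c hc c' hc').trans hsmall

end Pool.MPbe0380.Gb
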