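import Pool.Agent.Lib.MP_be0380_co.G.Machine
import Pool.Agent.Lib.MP_be0380_co.G.Fx
import Pool.Agent.Lib.MP_be0380_co.G.Base

/-!
# be0380, Section 4: levels (beta1)
-/

set_option autoImplicit false

open Finset

namespace Pool.MPbe0380.Gb

namespace B1

/-! ### two general averaging lemmas -/

section avg

variable {α β : Type}

open Classical in
theorem markov_card (J : α → ℝ) (hJ : ∀ x, 0 ≤ J x) (X : Finset α) (A : Finset β)
    (R : α → β → Prop) (w h : ℝ)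
    (hw : ∀ c ∈ A, ∑ x ∈ X.filter (fun x => R x c), J x ≤ w) :
    h * ∑ x ∈ X.filter (fun x => h < ((A.filter (fun c => R x c)).card : ℝ)), J x ≤ A.card * w := by
  calc h * ∑ x ∈ X.filter (fun x => h < ((A.filter (fun c => R x c)).card : ℝ)), J x
      = ∑ x ∈ X.filter (fun x => h < ((A.filter (fun c => R x c)).card : ℝ)), h * J x := mul_sum _ _ _
    _ ≤ ∑ x ∈ X.filter (fun x => h < ((A.filter (fun c => R x c)).card : ℝ)),
        ((A.filter (fun c => R x c)).card : ℝ) * J x := by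
        refine sum_le_sum fun x hx => mul_le_mul_of_nonneg_right (mem_filter.mp hx).2.le (hJ x)
    _ ≤ ∑ x ∈ X, ((A.filter (fun c => R x c)).card : ℝ) * J x := by
        refine sum_le_sum_of_subset_of_nonneg (filter_subset _ _) fun x _ _ =>
          mul_nonneg (Nat.cast_nonneg _) (hJ x)
    _ = ∑ x ∈ X, ∑ c ∈ A, if R x c then J x else 0 := by
        refine sum_congr rfl fun x _ => ?_
        rw [← sum_filter, sum_const, nsmul_eq_mul]
    _ = ∑ c ∈ A, ∑ x ∈ X, if R x c then J x else 0 := sum_comm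
    _ ≤ ∑ c ∈ A, w := by
        refine sum_le_sum fun c hc => ?_
        rw [← sum_filter]
        exact hw c hc
    _ = A.card * w := by rw [sum_const, nsmul_eq_mul]

open Classical in
theorem pair_weight (J : α → ℝ) (hJ : ∀ x, 0 ≤ J x) (X : Finset α) (A : Finset β)
    (R : α → β → Prop) (w : ℝ)
    (hw : ∀ c ∈ A, ∑ x ∈ X.filter (fun x => R x c), J x ≤ w) :
    ∑ e ∈ (X ×ˢ X).filter (fun e => ∃ c ∈ A, R e.1 c ∧ R e.2 c), J e.1 * J e.2 ≤ A.card * w ^ 2 := by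
  calc ∑ e ∈ (X ×ˢ X).filter (fun e => ∃ c ∈ A, R e.1 c ∧ R e.2 c), J e.1 * J e.2
      = ∑ e ∈ X ×ˢ X, if (∃ c ∈ A, R e.1 c ∧ R e.2 c) then J e.1 * J e.2 else 0 := sum_filter _ _
    _ ≤ ∑ e ∈ X ×ˢ X, ∑ c ∈ A, if (R e.1 c ∧ R e.2 c) then J e.1 * J e.2 else 0 := by
        refine sum_le_sum fun e _ => ?_
        have hn : ∀ c ∈ A, 0 ≤ (if (R e.1 c ∧ R e.2 c) then J e.1 * J e.2 else 0) := by
          intro c _
          split_ifs
          · exact mul_nonneg (hJ _) (hJ _)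
          · exact le_refl _
        split_ifs with h
        · obtain ⟨c, hc, h1⟩ := h
          have := single_le_sum hn hc
          rwa [if_pos h1] at this
        · exact sum_nonneg hn
    _ = ∑ c ∈ A, ∑ e ∈ X ×ˢ X, if (R e.1 c ∧ R e.2 c) then J e.1 * J e.2 else 0 := sum_comm
    _ ≤ ∑ c ∈ A, w ^ 2 := by
        refine sum_le_sum fun c hc => ?_
        have h1 : (∑ e ∈ X ×ˢ X, if (R e.1 c ∧ R e.2 c) then J e.1 * J e.2 else 0) =
            (∑ x ∈ X.filter (fun x => R x c), J x) * (∑ x ∈ X.filter (fun x => R x c), J x) := by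
          rw [sum_filter, sum_mul_sum, sum_product]
          refine sum_congr rfl fun x _ => sum_congr rfl fun y _ => ?_
          by_cases h2 : R x c <;> by_cases h3 : R y c <;> simp [h2, h3]
        rw [h1, ← pow_two]
        exact pow_le_pow_left₀ (sum_nonneg fun x _ => hJ x) (hw c hc) 2
    _ = A.card * w ^ 2 := by rw [sum_const, nsmul_eq_mul]

/-- Minkowski -/
theorem mink {ι : Type} [Fintype ι] (w f g : ι → ℝ) (hw : ∀ i, 0 ≤ w i) :
    √(∑ i, w i * (f i + g i) ^ 2) ≤ √(∑ i, w i * f i ^ 2) + √(∑ i, w i * g i ^ 2) := by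
  have h1 : ∀ i, (√(w i) * f i) ^ 2 = w i * f i ^ 2 := fun i => by
    rw [mul_pow, Real.sq_sqrt (hw i)]
  have h2 : ∀ i, (√(w i) * g i) ^ 2 = w i * g i ^ 2 := fun i => by
    rw [mul_pow, Real.sq_sqrt (hw i)]
  have h3 : ∑ i, w i * (f i * g i) ≤ √(∑ i, w i * f i ^ 2) * √(∑ i, w i * g i ^ 2) := by
    have h := Real.sum_mul_le_sqrt_mul_sqrt univ (fun i => √(w i) * f i) (fun i => √(w i) * g i)
    simp only [h1, h2] at h
    refine le_trans (le_of_eq (sum_congr rfl fun i _ => ?_)) h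
    calc w i * (f i * g i) = (√(w i) * √(w i)) * (f i * g i) := by rw [Real.mul_self_sqrt (hw i)]
      _ = _ := by ring
  have h4 : ∑ i, w i * (f i + g i) ^ 2 =
      ∑ i, w i * f i ^ 2 + ∑ i, w i * g i ^ 2 + 2 * ∑ i, w i * (f i * g i) := by
    rw [mul_sum, ← sum_add_distrib, ← sum_add_distrib]
    refine sum_congr rfl fun i _ => by ring
  have h5 : 0 ≤ ∑ i, w i * f i ^ 2 := sum_nonneg fun i _ => mul_nonneg (hw i) (sq_nonneg _)
  have h6 : 0 ≤ ∑ i, w i * g i ^ 2 := sum_nonneg fun i _ => mul_nonneg (hw i) (sq_nonneg _)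
  refine Real.sqrt_le_iff.mpr ⟨by positivity, ?_⟩
  rw [h4, add_sq, Real.sq_sqrt h5, Real.sq_sqrt h6]
  linarith

end avg

variable {p : ℕ} [Fact p.Prime]

/-! ### the norm `(E u_x u_g)^(1/2)` -/

section norm

variable (v : Lev p)

/-- `W_x(g) = E u_x u_g` -/
noncomputable def W (x g : ZMod p) : ℝ := v.E (fun l => u x l * u g l)

theorem W_nonneg (x g : ZMod p) : 0 ≤ W v x g :=
  sum_nonneg fun l _ => mul_nonneg (om_pos _ _).le (mul_nonneg (u_nonneg _ _) (u_nonneg _ _))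

theorem W_neg (x g : ZMod p) : W v x (-g) = W v x g := by
  unfold W
  simp only [u_neg]

theorem sqrt_u_add (a b l : ZMod p) : √(u (a + b) l) ≤ √(u a l) + √(u b l) := by
  have h := norm_e_add a b l
  rw [norm_e, norm_e, norm_e, Real.sqrt_mul (by norm_num), Real.sqrt_mul (by norm_num),
    Real.sqrt_mul (by norm_num)] at h
  have h2 : 0 < √(2 : ℝ) := Real.sqrt_pos.mpr (by norm_num)
  have h3 : √2 * √(u (a + b) l) ≤ √2 * (√(u a l) + √(u b l)) := by linarith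
  exact le_of_mul_le_mul_left h3 h2

theorem W_add (x a b : ZMod p) : √(W v x (a + b)) ≤ √(W v x a) + √(W v x b) := by
  have hw : ∀ l, 0 ≤ om v.I l * u x l := fun l => mul_nonneg (om_pos v.I l).le (u_nonneg x l)
  have key := mink (fun l => om v.I l * u x l) (fun l => √(u a l)) (fun l => √(u b l)) hw
  have e1 : ∀ g, ∑ l, om v.I l * u x l * (√(u g l)) ^ 2 = W v x g := by
    intro g
    unfold W Lev.E Ex
    refine sum_congr rfl fun l _ => ?_
    rw [Real.sq_sqrt (u_nonneg _ _)]; ring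
  rw [e1, e1] at key
  refine le_trans (Real.sqrt_le_sqrt ?_) key
  unfold W Lev.E Ex
  refine sum_le_sum fun l _ => ?_
  have h1 := sqrt_u_add a b l
  have h2 : u (a + b) l ≤ (√(u a l) + √(u b l)) ^ 2 := by
    calc u (a + b) l = √(u (a + b) l) ^ 2 := (Real.sq_sqrt (u_nonneg _ _)).symm
      _ ≤ _ := pow_le_pow_left₀ (Real.sqrt_nonneg _) h1 2
  calc om v.I l * (u x l * u (a + b) l) = om v.I l * u x l * u (a + b) l := by ring
    _ ≤ _ := mul_le_mul_of_nonneg_left h2 (hw l)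

theorem W_le (x g : ZMod p) : √(W v x g) ≤ √(2 * v.L) * v.dist g := by
  unfold Lev.dist
  have hL := v.L_pos
  rw [← Real.sqrt_mul (by positivity)]
  refine Real.sqrt_le_sqrt ?_
  have h1 : 2 * v.L * (v.E (u g) / v.L) = 2 * v.E (u g) := by field_simp
  rw [h1]
  unfold W Lev.E Ex
  rw [mul_sum]
  refine sum_le_sum fun l _ => ?_
  have h2 := u_le_two x l
  have h3 := u_nonneg g l
  have h4 := (om_pos v.I l).le
  calc om v.I l * (u x l * u g l) ≤ om v.I l * (2 * u g l) := by gcongr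
    _ = _ := by ring

/-- near points: `dist g ≤ s / 10` gives `W^(1/2) ≤ (3/20) s r` -/
theorem W_near (x g : ZMod p) (s : ℝ) (hg : v.dist g ≤ s / 10) :
    √(W v x g) ≤ 3 / 20 * s * √v.L := by
  have h := W_le v x g
  have hL := v.L_pos
  have h2 : √2 ≤ (3 / 2 : ℝ) := by
    rw [Real.sqrt_le_left (by norm_num)]
    norm_num
  have hd : 0 ≤ v.dist g := Real.sqrt_nonneg _
  rw [Real.sqrt_mul (by norm_num)] at h
  have h3 : √2 * √v.L * v.dist g ≤ 3 / 2 * √v.L * (s / 10) := by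
    gcongr
  linarith

theorem le_sqrt_iff {s r w : ℝ} (hs : 0 < s) (hr : 0 < r) :
    s ^ 2 / 64 * r ^ 2 ≤ w ↔ s * r / 8 ≤ √w := by
  have h0 : 0 < s * r / 8 := by positivity
  rw [Real.le_sqrt' h0]
  have h1 : (s * r / 8) ^ 2 = s ^ 2 / 64 * r ^ 2 := by ring
  rw [h1]

end norm

/-! ### the sets `S_x` -/

section sets

variable (v : Lev p)

open Classical in
/-- `S_x = {c ∈ A : g L ≤ E u_x u_c}` -/
noncomputable def S (g : ℝ) (x : ZMod p) : Finset (ZMod p) := v.A.filter (fun c => g * v.L ≤ W v x c)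

theorem mem_S {s : ℝ} (hs : 0 < s) {x c : ZMod p} (hc : c ∈ v.A) :
    c ∈ S v (s ^ 2 / 64) x ↔ s * √v.L / 8 ≤ √(W v x c) := by
  unfold S
  rw [mem_filter, ← le_sqrt_iff hs (Real.sqrt_pos.mpr v.L_pos), Real.sq_sqrt v.L_pos.le]
  exact ⟨fun h => h.2, fun h => ⟨hc, h⟩⟩

theorem W_self {s : ℝ} (hs : 0 < s) {x : ZMod p} (hx : s ^ 2 * v.L ≤ v.E (fun l => u x l ^ 2)) :
    s * √v.L ≤ √(W v x x) := by
  have h1 : W v x x = v.E (fun l => u x l ^ 2) := by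
    unfold W Lev.E Ex
    refine sum_congr rfl fun l _ => by ring
  have h0 : 0 < s * √v.L := mul_pos hs (Real.sqrt_pos.mpr v.L_pos)
  rw [Real.le_sqrt' h0, h1, mul_pow, Real.sq_sqrt v.L_pos.le]
  exact hx

theorem self_mem {s : ℝ} (hs : 0 < s) {x : ZMod p} (hxA : x ∈ v.A)
    (hx : s ^ 2 * v.L ≤ v.E (fun l => u x l ^ 2)) : x ∈ S v (s ^ 2 / 64) x := by
  rw [mem_S v hs hxA]
  have h1 := W_self v hs hx
  have h0 : 0 < s * √v.L := mul_pos hs (Real.sqrt_pos.mpr v.L_pos)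
  linarith

theorem near_mem {s : ℝ} (hs : 0 < s) {x c : ZMod p} (hc : c ∈ v.A)
    (hx : s ^ 2 * v.L ≤ v.E (fun l => u x l ^ 2)) (hd : v.dist (c - x) ≤ s / 10) :
    c ∈ S v (s ^ 2 / 64) x := by
  rw [mem_S v hs hc]
  have h1 := W_self v hs hx
  have h2 := W_add v x c (-(c - x))
  have h3 := W_near v x (c - x) s hd
  rw [W_neg, show c + -(c - x) = x by ring] at h2
  have h0 : 0 < s * √v.L := mul_pos hs (Real.sqrt_pos.mpr v.L_pos)
  linarith

theorem side {s : ℝ} (hs : 0 < s) {x y q q' c d : ZMod p} (hc : c ∈ v.A) (hd : d ∈ v.A)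
    (hyA : y ∈ v.A) (hsum : c + d = q + q')
    (hx : s ^ 2 * v.L ≤ v.E (fun l => u x l ^ 2)) (h1 : v.dist (q - x) ≤ s / 10)
    (h2 : v.dist (q' - y) ≤ s / 10) (hy : y ∉ S v (s ^ 2 / 64) x) :
    c ∈ S v (s ^ 2 / 64) x ∨ d ∈ S v (s ^ 2 / 64) x := by
  by_contra hcon
  push Not at hcon
  obtain ⟨hc1, hd1⟩ := hcon
  rw [mem_S v hs hc, not_le] at hc1
  rw [mem_S v hs hd, not_le] at hd1
  rw [mem_S v hs hyA, not_le] at hy
  have h0 : 0 < s * √v.L := mul_pos hs (Real.sqrt_pos.mpr v.L_pos)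
  have e0 := W_self v hs hx
  have e1 := W_near v x (q - x) s h1
  have e2 := W_near v x (q' - y) s h2
  have a1 := W_add v x (c + d - (q - x) - (q' - y)) (-y)
  have a2 := W_add v x (c + d - (q - x)) (-(q' - y))
  have a3 := W_add v x (c + d) (-(q - x))
  have a4 := W_add v x c d
  rw [W_neg, show c + d - (q - x) - (q' - y) + -y = x by rw [hsum]; ring] at a1
  rw [W_neg, ← sub_eq_add_neg] at a2
  rw [W_neg, ← sub_eq_add_neg] at a3
  linarith

theorem twin {s : ℝ} (hs : 0 < s) {x y q q' : ZMod p} (hxA : x ∈ v.A) (hyA : y ∈ v.A)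
    (hq : q ∈ v.A) (hq' : q' ∈ v.A)
    (hx : s ^ 2 * v.L ≤ v.E (fun l => u x l ^ 2)) (hy : s ^ 2 * v.L ≤ v.E (fun l => u y l ^ 2))
    (h1 : v.dist (q - x) ≤ s / 10) (h2 : v.dist (q' - y) ≤ s / 10)
    (hdis : ∀ c ∈ v.A, ¬ (c ∈ S v (s ^ 2 / 64) x ∧ c ∈ S v (s ^ 2 / 64) y)) :
    ∃ z : ZMod p, z ≠ 0 ∧ q - z ∈ S v (s ^ 2 / 64) x ∧ q' + z ∈ S v (s ^ 2 / 64) y := by
  have hxx := self_mem v hs hxA hx
  have hyy := self_mem v hs hyA hy
  obtain ⟨c, hc, d, hd, hsum, hne⟩ := v.nus q hq q' hq'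
  have hxy : y ∉ S v (s ^ 2 / 64) x := fun h => hdis y hyA ⟨h, hyy⟩
  have hyx : x ∉ S v (s ^ 2 / 64) y := fun h => hdis x hxA ⟨hxx, h⟩
  have k1 := side v hs hc hd hyA hsum hx h1 h2 hxy
  have k2 := side v hs hc hd hxA (by rw [hsum, add_comm]) hy h2 h1 hyx
  have hcc := hdis c hc
  have hdd := hdis d hd
  rcases k1 with hcx | hdx
  · have hdy : d ∈ S v (s ^ 2 / 64) y := by
      rcases k2 with h | h
      · exact absurd ⟨hcx, h⟩ hcc
      · exact h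
    refine ⟨q - c, ?_, ?_, ?_⟩
    · intro h0
      have e1 : c = q := by linear_combination -h0
      have e2 : d = q' := by linear_combination hsum + h0
      exact hne (by rw [e1, e2])
    · rw [sub_sub_cancel]; exact hcx
    · have : q' + (q - c) = d := by linear_combination -hsum
      rw [this]; exact hdy
  · have hcy : c ∈ S v (s ^ 2 / 64) y := by
      rcases k2 with h | h
      · exact h
      · exact absurd ⟨hdx, h⟩ hdd
    refine ⟨q - d, ?_, ?_, ?_⟩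
    · intro h0
      have e1 : d = q := by linear_combination -h0
      have e2 : c = q' := by linear_combination hsum + h0
      exact hne (by rw [e1, e2, Sym2.eq_swap])
    · rw [sub_sub_cancel]; exact hdx
    · have : q' + (q - d) = c := by linear_combination -hsum
      rw [this]; exact hcy

end sets

/-! ### base knowledges and lifts -/

section lifts

variable (v : Lev p)

theorem base (X : Finset (ZMod p)) (b : ℕ) : ∃ F : Setoid (ZMod p),
    v.cost F ≤ X.card * ((b : ℝ) + 3) ∧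
      ∀ c ∈ X, ∀ c' ∈ X, Lev.N F (c - c') ≤ (1 / 2 : ℝ) ^ b := by
  classical
  refine ⟨Lev.lst (X.image (fun c => (c, b + 1))), ?_, ?_⟩
  · refine (v.cost_lst _).trans ?_
    have h1 : ∑ e ∈ X.image (fun c => (c, b + 1)), ((e.2 : ℝ) + 2) =
        ∑ e ∈ X.image (fun c => (c, b + 1)), ((b : ℝ) + 3) := by
      refine sum_congr rfl fun e he => ?_
      obtain ⟨c, _, rfl⟩ := mem_image.mp he
      push_cast
      ring
    rw [h1, sum_const, nsmul_eq_mul]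
    have h2 : ((X.image (fun c => (c, b + 1))).card : ℝ) ≤ X.card := by exact_mod_cast card_image_le
    gcongr
  · intro c hc c' hc'
    have h1 : ∀ c ∈ X, Lev.N (Lev.lst (X.image (fun c => (c, b + 1)))) c ≤ (1 / 2 : ℝ) ^ (b + 1) :=
      fun c hc => Lev.N_lst _ (c, b + 1) (mem_image_of_mem _ hc)
    have h2 := Lev.N_add (Lev.lst (X.image (fun c => (c, b + 1)))) c (-c')
    rw [Lev.N_neg, ← sub_eq_add_neg] at h2
    have h3 := h1 c hc
    have h4 := h1 c' hc'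
    rw [pow_succ] at h3 h4
    linarith

theorem exists_cell (F : Setoid (ZMod p)) (hF : v.cost F < v.D) : ∃ l l' : ZMod p, l ≠ l' ∧ F.r l l' := by
  by_contra hcon
  push Not at hcon
  have h1 : F = ⊥ := by
    refine Setoid.ext fun a b => ?_
    constructor
    · intro h
      by_contra hab
      exact hcon a b hab h
    · intro h
      have : a = b := h
      rw [this]
  have h2 : v.cost F = ent (om v.I) := by
    unfold Lev.cost
    rw [h1]
    exact cent_bot _ (om_pos _) (isLaw_om _).2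
  have h3 := v.pd
  linarith

theorem abs_th_le (a l : ZMod p) : |th a l| ≤ 2 * Real.pi * nrm (a * l) := by
  have hp : (0 : ℝ) < p := by exact_mod_cast (Fact.out : p.Prime).pos
  have hmem := ZMod.valMinAbs_mem_Ioc (a * l)
  have h1 : ((a * l).valMinAbs : ZMod p) = a * l := ZMod.coe_valMinAbs _
  have h2 : z a l = Complex.exp (((2 * Real.pi * (a * l).valMinAbs / p : ℝ) : ℂ) * Complex.I) := by
    rw [z]
    conv_lhs => rw [← h1]
    rw [ZMod.stdAddChar_coe]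
    congr 1
    push_cast
    ring
  have h3 : 2 * Real.pi * ((a * l).valMinAbs : ℝ) / p ∈ Set.Ioc (-Real.pi) Real.pi := by
    have h4 : (-(p : ℝ)) < ((a * l).valMinAbs : ℝ) * 2 := by exact_mod_cast hmem.1
    have h5 : ((a * l).valMinAbs : ℝ) * 2 ≤ (p : ℝ) := by exact_mod_cast hmem.2
    have hpi := Real.pi_pos
    constructor
    · rw [lt_div_iff₀ hp]
      nlinarith
    · rw [div_le_iff₀ hp]
      nlinarith
  have h4 : th a l = 2 * Real.pi * ((a * l).valMinAbs : ℝ) / p := by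
    rw [th, h2, Complex.exp_mul_I]
    exact Complex.arg_cos_add_sin_mul_I h3
  rw [h4, nrm, abs_div, abs_mul, abs_of_pos hp, abs_of_pos (by positivity : 0 < 2 * Real.pi)]
  have h5 : |((a * l).valMinAbs : ℝ)| = ((a * l).valMinAbs.natAbs : ℝ) := by
    rw [Nat.cast_natAbs, Int.cast_abs]
  rw [h5, mul_div_assoc]

theorem nrm_le_N (F : Setoid (ZMod p)) {l l' : ZMod p} (h : F.r l l') (g : ZMod p) :
    nrm (g * (l - l')) ≤ Lev.N F g := by
  classical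
  unfold Lev.N
  exact le_sup' (fun e : ZMod p × ZMod p => nrm (g * (e.1 - e.2))) (b := (l, l'))
    (by simpa using h)

theorem lifts (F F' : Setoid (ZMod p)) (X Y : Finset (ZMod p)) (x y : ZMod p) (b : ℕ) (hb : 4 ≤ b)
    (hx : x ∈ X) (hy : y ∈ Y) (hF : v.cost F + v.cost F' < v.D)
    (h1 : ∀ c ∈ X, ∀ c' ∈ X, Lev.N F (c - c') ≤ (1 / 2 : ℝ) ^ b)
    (h2 : ∀ c ∈ Y, ∀ c' ∈ Y, Lev.N F' (c - c') ≤ (1 / 2 : ℝ) ^ b) :
    ∃ ψ ψ' : ZMod p → ℝ, Set.InjOn ψ X ∧ Set.InjOn ψ' Y ∧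
      ∀ q q' z, q ∈ X → q - z ∈ X → q' ∈ Y → q' + z ∈ Y →
        ψ q + ψ' q' = ψ (q - z) + ψ' (q' + z) := by
  have hc : v.cost (F ⊓ F') < v.D := lt_of_le_of_lt (cent_inf _ (om_pos _) (isLaw_om _).2 F F') hF
  obtain ⟨l, l', hne, hr⟩ := exists_cell v _ hc
  have hr1 : F.r l l' := hr.1
  have hr2 : F'.r l l' := hr.2
  have hb2 : (1 / 2 : ℝ) ^ b ≤ 1 / 16 := by
    calc (1 / 2 : ℝ) ^ b ≤ (1 / 2) ^ 4 := pow_le_pow_of_le_one (by norm_num) (by norm_num) hb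
      _ = 1 / 16 := by norm_num
  have hpi := Real.pi_pos
  refine lift_of_mu (sub_ne_zero.mpr hne) x y X Y ?_ ?_
  · intro c hc
    have e1 := abs_th_le (c - x) (l - l')
    have e2 := nrm_le_N F hr1 (c - x)
    have e3 := h1 c hc x hx
    nlinarith
  · intro c hc
    have e1 := abs_th_le (c - y) (l - l')
    have e2 := nrm_le_N F' hr2 (c - y)
    have e3 := h2 c hc y hy
    nlinarith

end lifts

/-! ### numbers -/

section numbers

/-- `T = K^(1/1200)` -/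
noncomputable def TT (k : ℕ) : ℝ := ((2 : ℝ) ^ k) ^ (1 / 1200 : ℝ)

theorem TT_pos (k : ℕ) : 0 < TT k := Real.rpow_pos_of_pos (by positivity) _

theorem TT_one_le (k : ℕ) : 1 ≤ TT k := Real.one_le_rpow (one_le_pow₀ (by norm_num)) (by norm_num)

theorem TT_pow (k n : ℕ) : TT k ^ n = ((2 : ℝ) ^ k) ^ ((n : ℝ) / 1200) := by
  unfold TT
  rw [← Real.rpow_natCast, ← Real.rpow_mul (by positivity)]
  congr 1
  ring

theorem TT_1200 (k : ℕ) : TT k ^ 1200 = (2 : ℝ) ^ k := by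
  rw [TT_pow]
  norm_num

theorem TT_12 (k : ℕ) : ((2 : ℝ) ^ k) ^ (1 / 100 : ℝ) = TT k ^ 12 := by
  rw [TT_pow]
  norm_num

theorem TT_4 (k : ℕ) : ((2 : ℝ) ^ k) ^ (-1 / 300 : ℝ) = ((TT k ^ 2)⁻¹) ^ 2 := by
  rw [← inv_pow, ← pow_mul, inv_pow, TT_pow, ← Real.rpow_neg (by positivity)]
  norm_num

/-- `B = 2^⌊k/96000⌋` -/
def BB (k : ℕ) : ℕ := 2 ^ (k / 96000)

theorem TT_eq (k : ℕ) : TT k = (2 : ℝ) ^ ((k : ℝ) / 1200) := by
  unfold TT
  rw [← Real.rpow_natCast, ← Real.rpow_mul (by positivity)]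
  congr 1
  ring

theorem BB_le (k : ℕ) : (BB k : ℝ) ^ 80 ≤ TT k := by
  rw [TT_eq, BB]
  push_cast
  rw [← pow_mul, ← Real.rpow_natCast]
  refine Real.rpow_le_rpow_of_exponent_le (by norm_num) ?_
  rw [le_div_iff₀ (by norm_num)]
  have h : k / 96000 * 80 * 1200 ≤ k := by omega
  exact_mod_cast h

theorem le_BB (k : ℕ) : TT k ≤ 2 ^ 80 * (BB k : ℝ) ^ 80 := by
  rw [TT_eq, BB]
  push_cast
  rw [← pow_mul, ← pow_add, ← Real.rpow_natCast]
  refine Real.rpow_le_rpow_of_exponent_le (by norm_num) ?_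
  rw [div_le_iff₀ (by norm_num)]
  have h : k ≤ (80 + k / 96000 * 80) * 1200 := by omega
  exact_mod_cast h

/-- eventually `10^30 k^3 ≤ T` and `10^90 ≤ T` -/
theorem ev (C : ℝ) : ∃ k2 : ℕ, ∀ k : ℕ, k2 ≤ k → C * (k : ℝ) ^ 3 ≤ TT k ∧ C ≤ TT k := by
  have hr : (1 : ℝ) < (2 : ℝ) ^ (1 / 1200 : ℝ) := Real.one_lt_rpow (by norm_num) (by norm_num)
  have h1 := tendsto_pow_const_div_const_pow_of_one_lt 3 hr
  have hC : (0 : ℝ) < (|C| + 1)⁻¹ := by positivity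
  have h2 := (h1.eventually (gt_mem_nhds hC)).and (Filter.eventually_ge_atTop 1)
  obtain ⟨k2, hk2⟩ := Filter.eventually_atTop.mp h2
  refine ⟨k2, fun k hk => ?_⟩
  obtain ⟨h3, h4⟩ := hk2 k hk
  have h5 : ((2 : ℝ) ^ (1 / 1200 : ℝ)) ^ k = TT k := by
    rw [TT_eq, ← Real.rpow_natCast, ← Real.rpow_mul (by norm_num)]
    congr 1
    ring
  rw [h5, div_lt_iff₀ (TT_pos k), inv_mul_eq_div, lt_div_iff₀ (by positivity)] at h3
  have h6 : (1 : ℝ) ≤ (k : ℝ) ^ 3 := one_le_pow₀ (by exact_mod_cast h4)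
  have h7 := le_abs_self C
  constructor
  · nlinarith
  · nlinarith [abs_nonneg C]

theorem num1 {k : ℕ} (h : (10 : ℝ) ^ 100 ≤ TT k) : 10 * TT k ^ 2 ≤ (BB k : ℝ) ^ 240 := by
  have h1 := le_BB k
  have hT := TT_pos k
  have h2 : TT k ^ 3 ≤ 2 ^ 240 * (BB k : ℝ) ^ 240 := by
    calc TT k ^ 3 ≤ (2 ^ 80 * (BB k : ℝ) ^ 80) ^ 3 := pow_le_pow_left₀ hT.le h1 3
      _ = _ := by rw [mul_pow, ← pow_mul, ← pow_mul]
  have h3 : (10 : ℝ) * 2 ^ 240 * TT k ^ 2 ≤ TT k ^ 3 := by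
    rw [pow_succ (TT k) 2, mul_comm (TT k ^ 2)]
    refine mul_le_mul_of_nonneg_right (le_trans ?_ h) (by positivity)
    norm_num
  have h4 : (2 : ℝ) ^ 240 * (10 * TT k ^ 2) ≤ 2 ^ 240 * (BB k : ℝ) ^ 240 := by linarith
  exact le_of_mul_le_mul_left h4 (by positivity)

theorem num2 {k : ℕ} (h : (10 : ℝ) ^ 100 ≤ TT k) : 2 ≤ BB k := by
  by_contra hcon
  have h1 : (BB k : ℝ) ≤ 1 := by exact_mod_cast (by omega : BB k ≤ 1)
  have h2 := num1 h
  have h3 : (BB k : ℝ) ^ 240 ≤ 1 := pow_le_one₀ (Nat.cast_nonneg _) h1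
  have h4 := TT_one_le k
  nlinarith

theorem le_BB30 {k : ℕ} (h : 2 ≤ BB k) : (k : ℝ) ≤ (BB k : ℝ) ^ 30 := by
  have h1 : 1 ≤ k / 96000 := by
    by_contra hcon
    have h2 : k / 96000 = 0 := by omega
    rw [BB, h2] at h
    norm_num at h
  have h2 : k / 96000 < 2 ^ (k / 96000) := Nat.lt_two_pow_self
  have h3 : k ≤ 96000 * (k / 96000 + 1) := by omega
  have h4 : (96000 : ℕ) ≤ 2 ^ (29 * (k / 96000)) := by
    calc (96000 : ℕ) ≤ 2 ^ 29 := by norm_num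
      _ ≤ 2 ^ (29 * (k / 96000)) := Nat.pow_le_pow_right (by norm_num) (by omega)
  have h5 : k ≤ BB k ^ 30 := by
    rw [BB, ← pow_mul]
    calc k ≤ 96000 * (k / 96000 + 1) := h3
      _ ≤ 2 ^ (29 * (k / 96000)) * 2 ^ (k / 96000) := Nat.mul_le_mul h4 (by omega)
      _ = 2 ^ (k / 96000 * 30) := by rw [← pow_add]; congr 1; ring
  exact_mod_cast h5

theorem exp_bound (k : ℕ) : TT k ^ 4 * 2 ^ k ≤ Real.exp k := by
  have hT := TT_pos k
  have h1 : TT k ^ 4 * 2 ^ k ≤ TT k ^ 400 * 2 ^ k := by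
    refine mul_le_mul_of_nonneg_right (pow_le_pow_right₀ (TT_one_le k) (by norm_num)) (by positivity)
  refine h1.trans ?_
  rw [← pow_le_pow_iff_left₀ (by positivity) (Real.exp_pos _).le (three_ne_zero)]
  have h2 : (TT k ^ 400 * 2 ^ k) ^ 3 = (16 : ℝ) ^ k := by
    rw [mul_pow, ← pow_mul, TT_1200, ← pow_mul, mul_comm k 3, pow_mul, ← mul_pow]
    norm_num
  have h3 : Real.exp k ^ 3 = (Real.exp 1 ^ 3) ^ k := by
    rw [← Real.exp_nat_mul, ← Real.exp_nat_mul, ← Real.exp_nat_mul]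
    congr 1
    push_cast
    ring
  rw [h2, h3]
  have h4 := Real.exp_one_gt_d9
  refine pow_le_pow_left₀ (by norm_num) ?_ k
  nlinarith [sq_nonneg (Real.exp 1 - 2.7182818283)]

theorem small {k : ℕ} {L : ℝ} (hk : 1 ≤ k) (h : (10 : ℝ) ^ 100 ≤ TT k)
    (h' : (10 : ℝ) ^ 100 * (k : ℝ) ^ 3 ≤ TT k) (hL : 1 / (k : ℝ) ^ 2 < 2 ^ k * L) :
    Real.exp (-(BB k : ℝ) ^ 30) * (BB k : ℝ) ^ 240 ≤ L := by
  have hT := TT_pos k
  have hk1 : (1 : ℝ) ≤ k := by exact_mod_cast hk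
  have h1 := le_BB30 (num2 h)
  have h2 : (BB k : ℝ) ^ 240 ≤ TT k ^ 3 := by
    calc (BB k : ℝ) ^ 240 = ((BB k : ℝ) ^ 80) ^ 3 := by rw [← pow_mul]
      _ ≤ _ := pow_le_pow_left₀ (by positivity) (BB_le k) 3
  have h3 : (k : ℝ) ^ 2 ≤ TT k := by
    have : (k : ℝ) ^ 2 ≤ (k : ℝ) ^ 3 := pow_le_pow_right₀ hk1 (by norm_num)
    nlinarith [pow_pos (by linarith : (0 : ℝ) < k) 3]
  have h4 : 1 ≤ TT k * (2 ^ k * L) := by
    rw [div_lt_iff₀ (by positivity)] at hL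
    have h5 : 0 < 2 ^ k * L := by
      by_contra hcon
      push Not at hcon
      have : 2 ^ k * L * (k : ℝ) ^ 2 ≤ 0 := mul_nonpos_of_nonpos_of_nonneg hcon (by positivity)
      linarith
    nlinarith
  have h5 : Real.exp (-(BB k : ℝ) ^ 30) ≤ Real.exp (-(k : ℝ)) := Real.exp_le_exp.mpr (by linarith)
  have h6 := exp_bound k
  have h7 : Real.exp (-(k : ℝ)) * TT k ^ 3 ≤ L := by
    rw [Real.exp_neg, inv_mul_le_iff₀ (Real.exp_pos _)]
    have hpos : 0 < TT k * 2 ^ k := by positivity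
    have h8 : TT k * 2 ^ k * TT k ^ 3 ≤ TT k * 2 ^ k * (Real.exp k * L) := by
      have h9 : TT k * 2 ^ k * TT k ^ 3 = TT k ^ 4 * 2 ^ k := by ring
      have h10 : TT k * 2 ^ k * (Real.exp k * L) = Real.exp k * (TT k * (2 ^ k * L)) := by ring
      rw [h9, h10]
      have := Real.exp_pos (k : ℝ)
      nlinarith
    exact le_of_mul_le_mul_left h8 hpos
  calc Real.exp (-(BB k : ℝ) ^ 30) * (BB k : ℝ) ^ 240
      ≤ Real.exp (-(k : ℝ)) * TT k ^ 3 := mul_le_mul h5 h2 (by positivity) (Real.exp_pos _).le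
    _ ≤ L := h7

theorem log_le {k : ℕ} {L : ℝ} (hk : 1 ≤ k) (h' : (10 : ℝ) ^ 100 * (k : ℝ) ^ 3 ≤ TT k)
    (hL0 : 0 < L) (hL : 1 / (k : ℝ) ^ 2 < 2 ^ k * L) : Real.log (2 / L) ≤ 2 * k := by
  have hT := TT_pos k
  have hk1 : (1 : ℝ) ≤ k := by exact_mod_cast hk
  have h3 : 2 * (k : ℝ) ^ 2 ≤ TT k := by
    have : (k : ℝ) ^ 2 ≤ (k : ℝ) ^ 3 := pow_le_pow_right₀ hk1 (by norm_num)
    nlinarith [pow_pos (by linarith : (0 : ℝ) < k) 3]
  have h4 : TT k ≤ 2 ^ k := by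
    calc TT k = TT k ^ 1 := (pow_one _).symm
      _ ≤ TT k ^ 1200 := pow_le_pow_right₀ (TT_one_le k) (by norm_num)
      _ = 2 ^ k := TT_1200 k
  rw [div_lt_iff₀ (by positivity)] at hL
  have h5 : 2 / L ≤ Real.exp (2 * k) := by
    rw [div_le_iff₀ hL0]
    have h6 : (2 : ℝ) ^ k * 2 ^ k ≤ Real.exp (2 * k) := by
      have e1 : Real.exp (2 * k) = (Real.exp 1 ^ 2) ^ k := by
        rw [← Real.exp_nat_mul, ← Real.exp_nat_mul]
        congr 1
        push_cast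
        ring
      rw [e1, ← mul_pow]
      have h4 := Real.exp_one_gt_d9
      refine pow_le_pow_left₀ (by norm_num) ?_ k
      nlinarith
    have h7 : 2 < 2 ^ k * 2 ^ k * L := by
      have h8 : 2 < 2 ^ k * L * (2 * (k : ℝ) ^ 2) := by linarith
      have h9 : 2 ^ k * L * (2 * (k : ℝ) ^ 2) ≤ 2 ^ k * L * 2 ^ k :=
        mul_le_mul_of_nonneg_left (h3.trans h4) (by positivity)
      linarith
    nlinarith
  calc Real.log (2 / L) ≤ Real.log (Real.exp (2 * k)) := Real.log_le_log (by positivity) h5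
    _ = 2 * k := Real.log_exp _

end numbers

end B1

open B1 in
open Classical in
theorem no_beta1 : ∃ k2 : ℕ, ∀ (p : ℕ) [Fact p.Prime] (v : BLev p), k2 ≤ v.k →
    v.D < ((2 : ℝ) ^ v.k) ^ (1 / 100 : ℝ) * √(v.A.card : ℝ) →
    v.m / 2 ≤ ∑ x ∈ v.supp.filter
      (fun x => ((2 : ℝ) ^ v.k) ^ (-1 / 300 : ℝ) * v.L ≤ v.E (fun l => u x l ^ 2)), v.J x → False := by
  obtain ⟨k2, hk2⟩ := ev (10 ^ 100)
  refine ⟨max k2 1, fun p _ v hk hD hm => ?_⟩
  have hk1 : 1 ≤ v.k := (le_max_right _ _).trans hk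
  obtain ⟨hT3, hTC⟩ := hk2 v.k ((le_max_left _ _).trans hk)
  have hk1' : (1 : ℝ) ≤ v.k := by exact_mod_cast hk1
  have hT1 := TT_one_le v.k
  have hT0 := TT_pos v.k
  have hB2 := num2 hTC
  have hB240 := num1 hTC
  have hB80 := BB_le v.k
  -- sizes
  have hcard : (2 : ℝ) ≤ (v.A.card : ℝ) := by exact_mod_cast v.two_le
  have hr0 : 0 < √(v.A.card : ℝ) := Real.sqrt_pos.mpr (by linarith)
  have hrr : √(v.A.card : ℝ) ^ 2 = (v.A.card : ℝ) := Real.sq_sqrt (by linarith)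
  have hmeq : v.m = TT v.k ^ 1200 * √(v.A.card : ℝ) := by
    rw [TT_1200]; exact v.m_eq
  have hL0 := v.L_pos
  have hbad : √(v.A.card : ℝ) / (v.k : ℝ) ^ 2 < v.D := v.bad
  have hDeq : v.D = TT v.k ^ 1200 * √(v.A.card : ℝ) * v.L := by
    unfold Lev.D; rw [hmeq]
  have hD0 : 0 < v.D := lt_trans (by positivity) hbad
  rw [TT_12] at hD
  rw [TT_4] at hm
  have hL : 1 / (v.k : ℝ) ^ 2 < 2 ^ v.k * v.L := by
    rw [hDeq, TT_1200] at hbad
    have h1 : √(v.A.card : ℝ) * (1 / (v.k : ℝ) ^ 2) < √(v.A.card : ℝ) * (2 ^ v.k * v.L) := by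
      calc √(v.A.card : ℝ) * (1 / (v.k : ℝ) ^ 2) = √(v.A.card : ℝ) / (v.k : ℝ) ^ 2 := by ring
        _ < 2 ^ v.k * √(v.A.card : ℝ) * v.L := hbad
        _ = _ := by ring
    exact lt_of_mul_lt_mul_left h1 hr0.le
  have hLT : v.L * TT v.k ^ 1188 < 1 := by
    rw [hDeq] at hD
    have h1 : TT v.k ^ 12 * √(v.A.card : ℝ) * (v.L * TT v.k ^ 1188) <
        TT v.k ^ 12 * √(v.A.card : ℝ) * 1 := by
      calc TT v.k ^ 12 * √(v.A.card : ℝ) * (v.L * TT v.k ^ 1188)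
          = TT v.k ^ 1200 * √(v.A.card : ℝ) * v.L := by
            rw [show (1200 : ℕ) = 12 + 1188 from rfl, pow_add]; ring
        _ < TT v.k ^ 12 * √(v.A.card : ℝ) := hD
        _ = _ := by ring
    exact lt_of_mul_lt_mul_left h1 (by positivity)
  have hlog := log_le hk1 hT3 hL0 hL
  have hsmall := small hk1 hTC hT3 hL
  have hmono : ∀ {a b : ℕ}, a ≤ b → TT v.k ^ a ≤ TT v.k ^ b := fun h => pow_le_pow_right₀ hT1 h
  have hk3 : (v.k : ℝ) ^ 2 ≤ (v.k : ℝ) ^ 3 := pow_le_pow_right₀ hk1' (by norm_num)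
  have hk2' : (v.k : ℝ) ≤ (v.k : ℝ) ^ 3 := by
    calc (v.k : ℝ) = (v.k : ℝ) ^ 1 := (pow_one _).symm
      _ ≤ _ := pow_le_pow_right₀ hk1' (by norm_num)
  -- parameters
  set T := TT v.k with hTdef
  set r := √(v.A.card : ℝ) with hrdef
  set K := (v.k : ℝ) with hKdef
  have hs : 0 < (T ^ 2)⁻¹ := by positivity
  obtain ⟨s, hsdef⟩ : ∃ s, s = (T ^ 2)⁻¹ := ⟨_, rfl⟩
  rw [← hsdef] at hm hs
  have hsT : s * T ^ 2 = 1 := by rw [hsdef]; exact inv_mul_cancel₀ (by positivity)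
  have hg : s ^ 2 / 64 * (64 * T ^ 4) = 1 := by
    calc s ^ 2 / 64 * (64 * T ^ 4) = (s * T ^ 2) ^ 2 := by ring
      _ = 1 := by rw [hsT, one_pow]
  have hg0 : 0 < s ^ 2 / 64 := by positivity
  have hginv : 1 / (s ^ 2 / 64) = 64 * T ^ 4 := by
    rw [div_eq_iff hg0.ne']
    linarith
  have hg1 : s ^ 2 / 64 ≤ 1 := by
    have h1 : 1 ≤ 64 * T ^ 4 := by
      have := one_le_pow₀ hT1 (n := 4)
      linarith
    nlinarith
  have hgL : 16 * v.L ≤ s ^ 2 / 64 := by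
    have h1 : 1024 * T ^ 4 ≤ T ^ 1188 := by
      calc 1024 * T ^ 4 ≤ T * T ^ 4 := by
            refine mul_le_mul_of_nonneg_right (le_trans (by norm_num) hTC) (by positivity)
        _ = T ^ 5 := by ring
        _ ≤ T ^ 1188 := hmono (by norm_num)
    have h2 : v.L * (1024 * T ^ 4) ≤ v.L * T ^ 1188 := mul_le_mul_of_nonneg_left h1 hL0.le
    have h3 : 16 * v.L * (64 * T ^ 4) ≤ s ^ 2 / 64 * (64 * T ^ 4) := by
      rw [hg]; linarith
    exact le_of_mul_le_mul_right h3 (by positivity)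
  have hsB : 1 ≤ s / 10 * (BB v.k : ℝ) ^ 240 := by
    calc (1 : ℝ) = s / 10 * (10 * T ^ 2) := by linarith
      _ ≤ s / 10 * (BB v.k : ℝ) ^ 240 := mul_le_mul_of_nonneg_left hB240 (by positivity)
  have hnear : ∀ g, v.dist g * (BB v.k : ℝ) ^ 240 ≤ 1 → v.dist g ≤ s / 10 := by
    intro g hg
    have h1 : v.dist g * (BB v.k : ℝ) ^ 240 ≤ s / 10 * (BB v.k : ℝ) ^ 240 := hg.trans hsB
    refine le_of_mul_le_mul_right h1 ?_
    have : 2 ≤ (BB v.k : ℝ) := by exact_mod_cast hB2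
    positivity
  have hw : ∀ c ∈ v.A, ∑ x ∈ v.supp.filter (fun x => s ^ 2 / 64 * v.L ≤ W v.toLev x c), v.J x ≤
      512 * K * T ^ 4 := by
    intro c hc
    have h1 := v.weight_u hc hgL hg1
    refine h1.trans ?_
    rw [div_eq_mul_one_div, hginv]
    have h2 : 4 * Real.log (2 / v.L) ≤ 8 * K := by linarith
    calc 4 * Real.log (2 / v.L) * (64 * T ^ 4) ≤ 8 * K * (64 * T ^ 4) :=
          mul_le_mul_of_nonneg_right h2 (by positivity)
      _ = _ := by ring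
  -- the system
  obtain ⟨h, hhdef⟩ : ∃ h, h = v.D / T ^ 600 := ⟨_, rfl⟩
  have hh0 : 0 < h := by rw [hhdef]; positivity
  set P : ZMod p → Prop := fun x => s ^ 2 * v.L ≤ v.E (fun l => u x l ^ 2) with hP
  set G0 : Finset (ZMod p) := (v.supp.filter P).filter (fun x => ((S v.toLev (s ^ 2 / 64) x).card : ℝ) ≤ h)
    with hG0
  have hG0s : G0 ⊆ v.supp := (filter_subset _ _).trans (filter_subset _ _)
  have hG0A : ∀ x ∈ G0, x ∈ v.A := fun x hx => (mem_filter.mp (hG0s hx)).1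
  have hG0P : ∀ x ∈ G0, P x := fun x hx => (mem_filter.mp (mem_filter.mp hx).1).2
  have hG0h : ∀ x ∈ G0, ((S v.toLev (s ^ 2 / 64) x).card : ℝ) ≤ h := fun x hx => (mem_filter.mp hx).2
  have hm0 : v.m / 3 ≤ ∑ x ∈ G0, v.J x := by
    have h1 := markov_card v.J v.J_nonneg v.supp v.A (fun x c => s ^ 2 / 64 * v.L ≤ W v.toLev x c)
      (512 * K * T ^ 4) h hw
    have h2 : ∑ x ∈ (v.supp.filter P).filter
        (fun x => ¬ ((S v.toLev (s ^ 2 / 64) x).card : ℝ) ≤ h), v.J x ≤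
        ∑ x ∈ v.supp.filter (fun x => h <
          ((v.A.filter (fun c => s ^ 2 / 64 * v.L ≤ W v.toLev x c)).card : ℝ)), v.J x := by
      refine sum_le_sum_of_subset_of_nonneg ?_ fun x _ _ => v.J_nonneg x
      intro x hx
      rw [mem_filter, mem_filter] at hx
      rw [mem_filter]
      exact ⟨hx.1.1, not_le.mp hx.2⟩
    have h3 := sum_filter_add_sum_filter_not (v.supp.filter P)
      (fun x => ((S v.toLev (s ^ 2 / 64) x).card : ℝ) ≤ h) v.J
    have h4 : (v.A.card : ℝ) * (512 * K * T ^ 4) ≤ h * (v.m / 6) := by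
      rw [← hrr, hmeq, hhdef]
      have e1 : r < v.D * K ^ 2 := by
        rwa [div_lt_iff₀ (by positivity)] at hbad
      have e2 : 3072 * K ^ 3 * T ^ 4 ≤ T ^ 600 := by
        calc 3072 * K ^ 3 * T ^ 4 ≤ T * T ^ 4 := by
              refine mul_le_mul_of_nonneg_right ?_ (by positivity)
              have : 0 < K ^ 3 := by positivity
              nlinarith
          _ = T ^ 5 := by ring
          _ ≤ T ^ 600 := hmono (by norm_num)
      have e3 : v.D / T ^ 600 * (T ^ 1200 * r / 6) = v.D * r * T ^ 600 / 6 := by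
        rw [show (1200 : ℕ) = 600 + 600 from rfl, pow_add]
        field_simp
      rw [e3]
      calc r ^ 2 * (512 * K * T ^ 4) = r * r * (512 * K * T ^ 4) := by ring
        _ ≤ (v.D * K ^ 2) * r * (512 * K * T ^ 4) := by gcongr
        _ = v.D * r * (3072 * K ^ 3 * T ^ 4) / 6 := by ring
        _ ≤ v.D * r * T ^ 600 / 6 := by gcongr
    have h5 : ∑ x ∈ v.supp.filter (fun x => h <
          ((v.A.filter (fun c => s ^ 2 / 64 * v.L ≤ W v.toLev x c)).card : ℝ)), v.J x ≤ v.m / 6 :=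
      le_of_mul_le_mul_left (h1.trans h4) hh0
    have h6 : ∑ x ∈ v.supp.filter P, v.J x = ∑ x ∈ G0, v.J x + ∑ x ∈ (v.supp.filter P).filter
        (fun x => ¬ ((S v.toLev (s ^ 2 / 64) x).card : ℝ) ≤ h), v.J x := by
      rw [hG0]; exact h3.symm
    linarith
  set Pr : Finset (ZMod p × ZMod p) := (G0 ×ˢ G0).filter (fun e => ¬ ∃ c ∈ v.A,
    s ^ 2 / 64 * v.L ≤ W v.toLev e.1 c ∧ s ^ 2 / 64 * v.L ≤ W v.toLev e.2 c) with hPr
  have hPrw : (9 / 10 : ℝ) * (∑ x ∈ G0, v.J x) ^ 2 ≤ ∑ e ∈ Pr, v.J e.1 * v.J e.2 := by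
    have h1 := pair_weight v.J v.J_nonneg G0 v.A (fun x c => s ^ 2 / 64 * v.L ≤ W v.toLev x c)
      (512 * K * T ^ 4) (fun c hc => (sum_le_sum_of_subset_of_nonneg
        (filter_subset_filter _ hG0s) fun x _ _ => v.J_nonneg x).trans (hw c hc))
    have h2 := sum_filter_add_sum_filter_not (G0 ×ˢ G0) (fun e => ∃ c ∈ v.A,
      s ^ 2 / 64 * v.L ≤ W v.toLev e.1 c ∧ s ^ 2 / 64 * v.L ≤ W v.toLev e.2 c)
      (fun e => v.J e.1 * v.J e.2)
    have h3 : ∑ e ∈ G0 ×ˢ G0, v.J e.1 * v.J e.2 = (∑ x ∈ G0, v.J x) ^ 2 := by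
      rw [pow_two, sum_mul_sum, sum_product]
    have h4 : (v.A.card : ℝ) * (512 * K * T ^ 4) ^ 2 ≤ (v.m / 3) ^ 2 / 10 := by
      rw [← hrr, hmeq]
      have e2 : 90 * 512 ^ 2 * K ^ 2 * T ^ 8 ≤ T ^ 2400 := by
        calc 90 * 512 ^ 2 * K ^ 2 * T ^ 8 ≤ T * T ^ 8 := by
              refine mul_le_mul_of_nonneg_right ?_ (by positivity)
              have : 0 < K ^ 3 := by positivity
              nlinarith
          _ = T ^ 9 := by ring
          _ ≤ T ^ 2400 := hmono (by norm_num)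
      have e3 : (T ^ 1200 * r / 3) ^ 2 / 10 = r ^ 2 * T ^ 2400 / 90 := by
        rw [show (2400 : ℕ) = 1200 * 2 from rfl, pow_mul]
        ring
      rw [e3]
      calc r ^ 2 * (512 * K * T ^ 4) ^ 2 = r ^ 2 * (90 * 512 ^ 2 * K ^ 2 * T ^ 8) / 90 := by ring
        _ ≤ r ^ 2 * T ^ 2400 / 90 := by gcongr
    have h5 : (v.m / 3) ^ 2 ≤ (∑ x ∈ G0, v.J x) ^ 2 :=
      pow_le_pow_left₀ (by rw [hmeq]; positivity) hm0 2
    rw [h3] at h2
    have h6 : ∑ e ∈ Pr, v.J e.1 * v.J e.2 = ∑ e ∈ (G0 ×ˢ G0).filter (fun e => ¬ ∃ c ∈ v.A,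
      s ^ 2 / 64 * v.L ≤ W v.toLev e.1 c ∧ s ^ 2 / 64 * v.L ≤ W v.toLev e.2 c),
      v.J e.1 * v.J e.2 := by rw [hPr]
    linarith
  have hPrdis : ∀ x y, (x, y) ∈ Pr → ∀ c ∈ v.A,
      ¬ (c ∈ S v.toLev (s ^ 2 / 64) x ∧ c ∈ S v.toLev (s ^ 2 / 64) y) := by
    intro x y hxy c hc hcc
    rw [hPr, mem_filter] at hxy
    exact hxy.2 ⟨c, hc, (mem_filter.mp hcc.1).2, (mem_filter.mp hcc.2).2⟩
  have hPrG : ∀ x y, (x, y) ∈ Pr → x ∈ G0 ∧ y ∈ G0 := by
    intro x y hxy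
    exact mem_product.mp (mem_filter.mp hxy).1
  have hbase : ∀ x ∈ G0, ∃ F, v.cost F * ((BB v.k : ℝ) ^ 2400) ^ 9 ≤ v.D ∧
      ∀ c ∈ S v.toLev (s ^ 2 / 64) x, ∀ c' ∈ S v.toLev (s ^ 2 / 64) x,
        Lev.N F (c - c') ≤ (1 / 2 : ℝ) ^ (BB v.k ^ 2400) := by
    intro x hx
    obtain ⟨F, hF1, hF2⟩ := base v.toLev (S v.toLev (s ^ 2 / 64) x) (BB v.k ^ 2400)
    refine ⟨F, ?_, hF2⟩
    have h1 : ((BB v.k ^ 2400 : ℕ) : ℝ) ≤ T ^ 30 := by
      push_cast
      calc (BB v.k : ℝ) ^ 2400 = ((BB v.k : ℝ) ^ 80) ^ 30 := by rw [← pow_mul]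
        _ ≤ T ^ 30 := pow_le_pow_left₀ (by positivity) hB80 30
    have h2 : v.cost F ≤ h * (T ^ 30 + 3) := by
      refine hF1.trans ?_
      exact mul_le_mul (hG0h x hx) (by linarith) (by positivity) hh0.le
    have h3 : ((BB v.k : ℝ) ^ 2400) ^ 9 ≤ (T ^ 30) ^ 9 := by
      refine pow_le_pow_left₀ (by positivity) ?_ 9
      exact_mod_cast h1
    have h4 : (T ^ 30 + 3) * (T ^ 30) ^ 9 ≤ T ^ 600 := by
      have e1 : 1 ≤ T ^ 30 := one_le_pow₀ hT1
      calc (T ^ 30 + 3) * (T ^ 30) ^ 9 ≤ (T * T ^ 30) * (T ^ 30) ^ 9 := by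
            refine mul_le_mul_of_nonneg_right ?_ (by positivity)
            have e2 : 4 ≤ T := le_trans (by norm_num) hTC
            nlinarith
        _ = T ^ 301 := by ring
        _ ≤ T ^ 600 := hmono (by norm_num)
    calc v.cost F * ((BB v.k : ℝ) ^ 2400) ^ 9
        ≤ (h * (T ^ 30 + 3)) * (T ^ 30) ^ 9 := by
          refine mul_le_mul h2 h3 (by positivity) (by positivity)
      _ = h * ((T ^ 30 + 3) * (T ^ 30) ^ 9) := by ring
      _ ≤ h * T ^ 600 := mul_le_mul_of_nonneg_left h4 hh0.le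
      _ = v.D := by rw [hhdef]; exact div_mul_cancel₀ _ (by positivity)
  have hB2r : (2 : ℝ) ≤ (BB v.k : ℝ) := by exact_mod_cast hB2
  refine gibbs_machine v.toLev (BB v.k) h G0 (fun x => S v.toLev (s ^ 2 / 64) x) Pr hB2 hsmall hh0
    ?_ hG0s hm0 ?_ hG0h ?_ hbase ?_ ?_ hPrw ?_ ?_
  · -- h_le
    have h1 : h ≤ v.D := by
      rw [hhdef]
      exact div_le_self hD0.le (one_le_pow₀ hT1)
    have h2 : 1 ≤ ((BB v.k : ℝ) ^ 2400) ^ 10 := one_le_pow₀ (one_le_pow₀ (by linarith))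
    nlinarith
  · exact fun x _ => filter_subset _ _
  · exact fun x hx c hc hd => near_mem v.toLev hs hc (hG0P x hx) (hnear _ hd)
  · exact filter_subset _ _
  · intro x y hxy
    rw [hPr, mem_filter, mem_product] at hxy ⊢
    refine ⟨⟨hxy.1.2, hxy.1.1⟩, fun ⟨c, hc, h1, h2⟩ => hxy.2 ⟨c, hc, h2, h1⟩⟩
  · intro x y hxy q hq q' hq' h1 h2
    obtain ⟨hx, hy⟩ := hPrG x y hxy
    exact twin v.toLev hs (hG0A x hx) (hG0A y hy) hq hq' (hG0P x hx) (hG0P y hy) (hnear _ h1)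
      (hnear _ h2) (hPrdis x y hxy)
  · intro x y hxy
    obtain ⟨hx, hy⟩ := hPrG x y hxy
    obtain ⟨F, hF1, hF2⟩ := hbase x hx
    obtain ⟨F', hF1', hF2'⟩ := hbase y hy
    have hb9 : (2 : ℝ) ^ 9 ≤ ((BB v.k : ℝ) ^ 2400) ^ 9 := by
      refine pow_le_pow_left₀ (by norm_num) ?_ 9
      calc (2 : ℝ) ≤ (BB v.k : ℝ) ^ 1 := by rw [pow_one]; exact hB2r
        _ ≤ (BB v.k : ℝ) ^ 2400 := pow_le_pow_right₀ (by linarith) (by norm_num)
    have hc : ∀ F : Setoid (ZMod p), v.cost F * ((BB v.k : ℝ) ^ 2400) ^ 9 ≤ v.D →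
        v.cost F < v.D / 2 := by
      intro F hF
      have h0 : 0 ≤ v.cost F := cent_nonneg _ (om_pos _) (isLaw_om _).2 F
      nlinarith
    have h4 : 4 ≤ BB v.k ^ 2400 := by
      calc 4 = 2 ^ 2 := by norm_num
        _ ≤ BB v.k ^ 2 := Nat.pow_le_pow_left hB2 2
        _ ≤ BB v.k ^ 2400 := Nat.pow_le_pow_right (by omega) (by norm_num)
    exact lifts v.toLev F F' _ _ x y _ h4 (self_mem v.toLev hs (hG0A x hx) (hG0P x hx))
      (self_mem v.toLev hs (hG0A y hy) (hG0P y hy)) (by linarith [hc F hF1, hc F' hF1']) hF2 hF2'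

end Pool.MPbe0380.Gb
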