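import Pool.Agent.Lib.MP_be0380_co.G.Fx

/-!
# be0380, Section 3 (levels alpha): the twins
-/

set_option autoImplicit false

open Finset

namespace Pool.MPbe0380.Gb

variable {p : ℕ} [Fact p.Prime]

namespace Lev

variable (v : Lev p)

theorem al_E_mono {F G : ZMod p → ℝ} (h : ∀ l, F l ≤ G l) : v.E F ≤ v.E G := by
  unfold E Ex
  exact sum_le_sum fun l _ => mul_le_mul_of_nonneg_left (h l) (om_pos _ l).le

theorem al_E_nonneg {F : ZMod p → ℝ} (h : ∀ l, 0 ≤ F l) : 0 ≤ v.E F := by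
  unfold E Ex
  exact sum_nonneg fun l _ => mul_nonneg (om_pos _ l).le (h l)

theorem al_E_add (F G : ZMod p → ℝ) : v.E (fun l => F l + G l) = v.E F + v.E G := by
  unfold E Ex
  rw [← sum_add_distrib]
  exact sum_congr rfl fun l _ => by ring

theorem al_E_sub (F G : ZMod p → ℝ) : v.E (fun l => F l - G l) = v.E F - v.E G := by
  unfold E Ex
  rw [← sum_sub_distrib]
  exact sum_congr rfl fun l _ => by ring

theorem al_E_smul (c : ℝ) (F : ZMod p → ℝ) : v.E (fun l => c * F l) = c * v.E F := by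
  unfold E Ex
  rw [mul_sum]
  exact sum_congr rfl fun l _ => by ring

theorem al_E_abs (F : ZMod p → ℝ) : |v.E F| ≤ v.E (fun l => |F l|) := by
  unfold E Ex
  refine (abs_sum_le_sum_abs _ _).trans (le_of_eq (sum_congr rfl fun l _ => ?_))
  rw [abs_mul, abs_of_nonneg (om_pos _ l).le]

theorem al_E_cs (F G : ZMod p → ℝ) :
    (v.E (fun l => F l * G l)) ^ 2 ≤ v.E (fun l => F l ^ 2) * v.E (fun l => G l ^ 2) := by
  have h := sum_mul_sq_le_sq_mul_sq univ (fun l => √(om v.I l) * F l) (fun l => √(om v.I l) * G l)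
  have e1 : ∀ l, √(om v.I l) * F l * (√(om v.I l) * G l) = om v.I l * (F l * G l) := by
    intro l
    have := Real.mul_self_sqrt (om_pos v.I l).le
    calc √(om v.I l) * F l * (√(om v.I l) * G l) = (√(om v.I l) * √(om v.I l)) * (F l * G l) := by ring
      _ = _ := by rw [this]
  have e2 : ∀ (H : ZMod p → ℝ) l, (√(om v.I l) * H l) ^ 2 = om v.I l * H l ^ 2 := by
    intro H l
    rw [mul_pow, Real.sq_sqrt (om_pos v.I l).le]
  simp only [e1, e2] at h
  exact h

/-- `2 L f_x(c) = E Re(conj(e_x) e_c)` -/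
theorem al_f_eq (x c : ZMod p) :
    2 * v.L * v.f x c = v.E (fun l => (e x l).re * (e c l).re + (e x l).im * (e c l).im) := by
  unfold f
  rw [mul_div_cancel₀ _ (by have := v.L_pos; positivity), ← al_E_add]
  congr 1
  funext l
  rw [e_re, e_re, e_im, e_im]
  ring

theorem al_triple (a b c : ZMod p) :
    (v.E (fun l => ‖e a l‖ * ‖e b l‖ * ‖e c l‖)) ^ 2 ≤
      8 * v.E (fun l => u a l * u b l) * v.E (u c) := by
  refine (v.al_E_cs (fun l => ‖e a l‖ * ‖e b l‖) (fun l => ‖e c l‖)).trans (le_of_eq ?_)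
  have h1 : (fun l => (‖e a l‖ * ‖e b l‖) ^ 2) = fun l => 4 * (u a l * u b l) := by
    funext l
    rw [mul_pow, norm_e_sq, norm_e_sq]
    ring
  have h2 : (fun l => ‖e c l‖ ^ 2) = fun l => 2 * u c l := by
    funext l
    rw [norm_e_sq]
  rw [h1, h2, al_E_smul, al_E_smul]
  ring

theorem al_diff {x c d q q' : ZMod p} (h : c + d = q + q') :
    2 * v.L * |v.f x c + v.f x d - v.f x q - v.f x q'| ≤
      v.E (fun l => ‖e x l‖ * ‖e c l‖ * ‖e d l‖) + v.E (fun l => ‖e x l‖ * ‖e q l‖ * ‖e q' l‖) := by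
  have hL := v.L_pos
  have h1 : 2 * v.L * |v.f x c + v.f x d - v.f x q - v.f x q'| =
      |v.E (fun l => (e x l).re * (e c l * e d l - e q l * e q' l).re +
        (e x l).im * (e c l * e d l - e q l * e q' l).im)| := by
    rw [← abs_of_pos (show 0 < 2 * v.L by positivity), ← abs_mul]
    congr 1
    have e0 : 2 * v.L * (v.f x c + v.f x d - v.f x q - v.f x q') =
        2 * v.L * v.f x c + 2 * v.L * v.f x d - 2 * v.L * v.f x q - 2 * v.L * v.f x q' := by ring
    rw [e0, al_f_eq, al_f_eq, al_f_eq, al_f_eq, ← al_E_add, ← al_E_sub, ← al_E_sub]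
    congr 1
    funext l
    have e1 := e_add c d l
    have e2 := e_add q q' l
    rw [h] at e1
    have e3 : e c l * e d l - e q l * e q' l = e c l + e d l - e q l - e q' l := by
      linear_combination e1 - e2
    rw [e3]
    simp only [Complex.sub_re, Complex.add_re, Complex.sub_im, Complex.add_im]
    ring
  rw [h1, ← al_E_add]
  refine (v.al_E_abs _).trans (v.al_E_mono fun l => ?_)
  have h2 : (e x l).re * (e c l * e d l - e q l * e q' l).re +
      (e x l).im * (e c l * e d l - e q l * e q' l).im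
      = ((starRingEnd ℂ) (e x l) * (e c l * e d l - e q l * e q' l)).re := by
    rw [Complex.mul_re, Complex.conj_re, Complex.conj_im]
    ring
  rw [h2]
  refine (Complex.abs_re_le_norm _).trans ?_
  rw [norm_mul, RCLike.norm_conj]
  calc ‖e x l‖ * ‖e c l * e d l - e q l * e q' l‖
      ≤ ‖e x l‖ * (‖e c l * e d l‖ + ‖e q l * e q' l‖) :=
        mul_le_mul_of_nonneg_left (norm_sub_le _ _) (norm_nonneg _)
    _ = _ := by rw [norm_mul, norm_mul]; ring

theorem al_u_mul {x y c : ZMod p} :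
    v.E (fun l => u x l * u c l) ≤ 2 * v.E (fun l => u x l * u y l) + 4 * v.E (u (c - y)) := by
  have h1 : ∀ l, u x l * u c l ≤ 2 * (u x l * u y l) + 4 * u (c - y) l := by
    intro l
    have hx0 := u_nonneg x l
    have hx2 := u_le_two x l
    have hc : u c l ≤ 2 * u y l + 2 * u (c - y) l := by
      have a1 := norm_e_sq c l
      have a2 := norm_e_sq y l
      have a3 := norm_e_sq (c - y) l
      have a4 := norm_e_sub c y l
      have a5 : ‖e c l‖ ≤ ‖e y l‖ + ‖e (c - y) l‖ := by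
        rw [← a4]
        have := norm_add_le (e y l) (e c l - e y l)
        rwa [add_sub_cancel] at this
      have b1 := norm_nonneg (e c l)
      nlinarith [sq_nonneg (‖e y l‖ - ‖e (c - y) l‖)]
    have hd0 := u_nonneg (c - y) l
    nlinarith
  refine (v.al_E_mono h1).trans (le_of_eq ?_)
  rw [al_E_add, al_E_smul, al_E_smul]

theorem al_dist_sq (g : ZMod p) : v.E (u g) = v.L * v.dist g ^ 2 := by
  unfold dist
  rw [Real.sq_sqrt (div_nonneg (v.al_E_nonneg fun l => u_nonneg g l) v.L_pos.le),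
    mul_div_cancel₀ _ v.L_pos.ne']

/-- near additivity at a far pair -/
theorem al_lower {x y c d q q' : ZMod p} (hx : x ∈ v.supp) (hc : c ∈ v.A)
    (hd : d ∈ v.A) (hq : q ∈ v.A) (hcd : c + d = q + q')
    (hqx : v.dist (q - x) ≤ 1 / 4000) (hqy : v.dist (q' - y) ≤ 1 / 4000)
    (hS : v.E (fun l => u x l * u y l) < 1 / 10 ^ 6 * v.L) (hf : |v.f x y| < 1 / 100)
    (hcdS : v.E (fun l => u x l * u c l) < 1 / 10 ^ 6 * v.L ∨
      v.E (fun l => u x l * u d l) < 1 / 10 ^ 6 * v.L) :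
    97 / 100 ≤ v.f x c + v.f x d := by
  have hL := v.L_pos
  have h1 := v.al_diff (x := x) hcd
  have hfq : |v.f x q - 1| ≤ 1 / 4000 := by
    have := v.f_lip hx q x
    rw [v.f_self hx] at this
    exact this.trans hqx
  have hfq' : |v.f x q' - v.f x y| ≤ 1 / 4000 := (v.f_lip hx q' y).trans hqy
  -- first triple
  have hEc : v.E (u c) ≤ v.L := v.kkt c hc
  have hEd : v.E (u d) ≤ v.L := v.kkt d hd
  have hEq : v.E (u q) ≤ v.L := v.kkt q hq
  have t1 : v.E (fun l => ‖e x l‖ * ‖e c l‖ * ‖e d l‖) ≤ 3 / 1000 * v.L := by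
    have h0 : 0 ≤ v.E (fun l => ‖e x l‖ * ‖e c l‖ * ‖e d l‖) :=
      v.al_E_nonneg fun l => by positivity
    have hsq : (v.E (fun l => ‖e x l‖ * ‖e c l‖ * ‖e d l‖)) ^ 2 ≤ (3 / 1000 * v.L) ^ 2 := by
      rcases hcdS with h | h
      · have a1 := v.al_triple x c d
        have a2 : 0 ≤ v.E (u d) := v.al_E_nonneg fun l => u_nonneg d l
        have a3 : 0 ≤ v.E (fun l => u x l * u c l) :=
          v.al_E_nonneg fun l => mul_nonneg (u_nonneg _ _) (u_nonneg _ _)
        nlinarith [mul_le_mul h.le hEd a2 (by positivity)]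
      · have a1 := v.al_triple x d c
        have a2 : 0 ≤ v.E (u c) := v.al_E_nonneg fun l => u_nonneg c l
        have e1 : v.E (fun l => ‖e x l‖ * ‖e c l‖ * ‖e d l‖) =
            v.E (fun l => ‖e x l‖ * ‖e d l‖ * ‖e c l‖) := by
          congr 1
          funext l
          ring
        rw [e1]
        nlinarith [mul_le_mul h.le hEc a2 (by positivity)]
    exact (sq_le_sq₀ h0 (by positivity)).mp hsq
  have t2 : v.E (fun l => ‖e x l‖ * ‖e q l‖ * ‖e q' l‖) ≤ 5 / 1000 * v.L := by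
    have h0 : 0 ≤ v.E (fun l => ‖e x l‖ * ‖e q l‖ * ‖e q' l‖) :=
      v.al_E_nonneg fun l => by positivity
    have hsq : (v.E (fun l => ‖e x l‖ * ‖e q l‖ * ‖e q' l‖)) ^ 2 ≤ (5 / 1000 * v.L) ^ 2 := by
      have a1 := v.al_triple x q' q
      have a2 : 0 ≤ v.E (u q) := v.al_E_nonneg fun l => u_nonneg q l
      have e1 : v.E (fun l => ‖e x l‖ * ‖e q l‖ * ‖e q' l‖) =
          v.E (fun l => ‖e x l‖ * ‖e q' l‖ * ‖e q l‖) := by
        congr 1
        funext l
        ring
      rw [e1]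
      have a3 := v.al_u_mul (x := x) (y := y) (c := q')
      have a4 := v.al_dist_sq (q' - y)
      have a5 : v.dist (q' - y) ^ 2 ≤ (1 / 4000) ^ 2 := by
        have : 0 ≤ v.dist (q' - y) := Real.sqrt_nonneg _
        exact pow_le_pow_left₀ this hqy 2
      have a6 : v.E (fun l => u x l * u q' l) ≤ 3 / 10 ^ 6 * v.L := by
        rw [a4] at a3
        nlinarith
      have a7 : 0 ≤ v.E (fun l => u x l * u q' l) :=
        v.al_E_nonneg fun l => mul_nonneg (u_nonneg _ _) (u_nonneg _ _)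
      nlinarith [mul_le_mul a6 hEq a2 (by positivity)]
    exact (sq_le_sq₀ h0 (by positivity)).mp hsq
  have h2 : 2 * v.L * |v.f x c + v.f x d - v.f x q - v.f x q'| ≤ 2 * v.L * (4 / 1000) := by
    linarith
  have h3 : |v.f x c + v.f x d - v.f x q - v.f x q'| ≤ 4 / 1000 :=
    le_of_mul_le_mul_left h2 (by positivity)
  rw [abs_le] at h3 hfq hfq'
  rw [abs_lt] at hf
  linarith [h3.1, hfq.1, hfq'.1, hf.1]

/-- `x` feels `c` -/
def Feel (x c : ZMod p) : Prop :=
  1 / 10 ^ 6 * v.L ≤ v.E (fun l => u x l * u c l) ∨ 1 / 100 ≤ |v.f x c|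

theorem al_notFeel {x c : ZMod p} (h : ¬ v.Feel x c) :
    v.E (fun l => u x l * u c l) < 1 / 10 ^ 6 * v.L ∧ |v.f x c| < 1 / 100 := by
  unfold Feel at h
  push Not at h
  exact h

theorem al_feel_self {x : ZMod p} (hx : x ∈ v.supp) : v.Feel x x := by
  right
  rw [v.f_self hx]
  norm_num

/-- twins in one order -/
theorem al_twin_aux {x y c d : ZMod p} (hx : x ∈ v.supp) (hy : y ∈ v.supp)
    (hdis : ∀ c ∈ v.A, v.Feel x c → ¬ v.Feel y c) (hc : c ∈ v.A)
    (hd : d ∈ v.A) (h1 : 97 / 100 ≤ v.f x c + v.f x d) (h2 : 97 / 100 ≤ v.f y c + v.f y d)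
    (hle : v.f x d ≤ v.f x c) : v.dist (c - x) ≤ 1 / 2 ∧ v.dist (d - y) ≤ 1 / 2 := by
  have hfc : v.Feel x c := by
    right
    have : 48 / 100 ≤ v.f x c := by linarith
    exact le_trans (by norm_num) (this.trans (le_abs_self _))
  have hyc := (v.al_notFeel (hdis c hc hfc)).2
  rw [abs_lt] at hyc
  have hyd : 96 / 100 ≤ v.f y d := by linarith [hyc.2]
  have hfd : v.Feel y d := by
    right
    exact le_trans (by norm_num) (hyd.trans (le_abs_self _))
  have hxd : ¬ v.Feel x d := fun h => hdis d hd h hfd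
  have hxd' := (v.al_notFeel hxd).2
  rw [abs_lt] at hxd'
  have hxc : 96 / 100 ≤ v.f x c := by linarith [hxd'.2]
  have g1 := v.dist_sq_le hx hc
  have g2 := v.dist_sq_le hy hd
  unfold t at g1 g2
  have n1 : 0 ≤ v.dist (c - x) := Real.sqrt_nonneg _
  have n2 : 0 ≤ v.dist (d - y) := Real.sqrt_nonneg _
  constructor
  · nlinarith
  · nlinarith

/-- the twins -/
theorem al_twin {x y q q' : ZMod p} (hx : x ∈ v.supp) (hy : y ∈ v.supp)
    (hdis : ∀ c ∈ v.A, v.Feel x c → ¬ v.Feel y c) (hq : q ∈ v.A) (hq' : q' ∈ v.A)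
    (hqx : v.dist (q - x) ≤ 1 / 4000) (hqy : v.dist (q' - y) ≤ 1 / 4000) :
    ∃ z : ZMod p, z ≠ 0 ∧ (q - z ∈ v.A ∧ v.dist (q - z - x) ≤ 1 / 2) ∧
      (q' + z ∈ v.A ∧ v.dist (q' + z - y) ≤ 1 / 2) := by
  obtain ⟨c, hc, d, hd, hcd, hne⟩ := v.nus q hq q' hq'
  have hxA : x ∈ v.A := by
    classical
    unfold supp at hx
    exact (mem_filter.1 hx).1
  have hyA : y ∈ v.A := by
    classical
    unfold supp at hy
    exact (mem_filter.1 hy).1
  have hdis' : ∀ c ∈ v.A, v.Feel y c → ¬ v.Feel x c := fun c hc h1 h2 => hdis c hc h2 h1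
  have hxy : ¬ v.Feel x y := hdis' y hyA (v.al_feel_self hy)
  have hyx : ¬ v.Feel y x := hdis x hxA (v.al_feel_self hx)
  obtain ⟨sxy, fxy⟩ := v.al_notFeel hxy
  obtain ⟨syx, fyx⟩ := v.al_notFeel hyx
  have hcd' : c + d = q' + q := by rw [hcd, add_comm]
  have Lx := fun h => v.al_lower (y := y) hx hc hd hq hcd hqx hqy sxy fxy h
  have Ly := fun h => v.al_lower (y := x) hy hc hd hq' hcd' hqy hqx syx fyx h
  -- not both far from `x`
  have key : ∀ x y : ZMod p, (∀ c ∈ v.A, v.Feel x c → ¬ v.Feel y c) →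
      ((v.E (fun l => u y l * u c l) < 1 / 10 ^ 6 * v.L ∨
        v.E (fun l => u y l * u d l) < 1 / 10 ^ 6 * v.L) → 97 / 100 ≤ v.f y c + v.f y d) →
      (v.E (fun l => u x l * u c l) < 1 / 10 ^ 6 * v.L ∨
        v.E (fun l => u x l * u d l) < 1 / 10 ^ 6 * v.L) := by
    intro x y hdis Ly
    by_contra hcon
    push Not at hcon
    have n1 := hdis c hc (Or.inl hcon.1)
    have n2 := hdis d hd (Or.inl hcon.2)
    obtain ⟨a1, a2⟩ := v.al_notFeel n1
    obtain ⟨a3, a4⟩ := v.al_notFeel n2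
    have := Ly (Or.inl a1)
    rw [abs_lt] at a2 a4
    linarith [a2.2, a4.2]
  have hX := Lx (key x y hdis Ly)
  have hY := Ly (key y x hdis' Lx)
  rcases le_total (v.f x d) (v.f x c) with hle | hle
  · obtain ⟨r1, r2⟩ := v.al_twin_aux hx hy hdis hc hd hX hY hle
    refine ⟨q - c, ?_, ?_, ?_⟩
    · intro h0
      rw [sub_eq_zero] at h0
      subst h0
      have : d = q' := add_left_cancel hcd
      subst this
      exact hne rfl
    · rw [sub_sub_cancel]; exact ⟨hc, r1⟩
    · have e1 : q' + (q - c) = d := by linear_combination -hcd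
      rw [e1]; exact ⟨hd, r2⟩
  · obtain ⟨r1, r2⟩ := v.al_twin_aux hx hy hdis hd hc
      (by linarith) (by linarith) hle
    refine ⟨q - d, ?_, ?_, ?_⟩
    · intro h0
      rw [sub_eq_zero] at h0
      subst h0
      have : c = q' := by
        have h3 : c + q = q' + q := hcd'
        exact add_right_cancel h3
      subst this
      exact hne Sym2.eq_swap
    · rw [sub_sub_cancel]; exact ⟨hd, r1⟩
    · have e1 : q' + (q - d) = c := by linear_combination -hcd
      rw [e1]; exact ⟨hc, r2⟩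

end Lev

end Pool.MPbe0380.Gb
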