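import Pool.Agent.Lib.MP_be0380_co.T.AlphaA
import Pool.Agent.Lib.MP_be0380_co.G.Base
import Pool.Agent.Lib.MP_be0380_co.G.Lst
import Pool.Agent.Lib.MP_be0380_co.G.Cond
import Pool.Agent.Lib.MP_be0380_co.G.Conf

/-!
# be0380, Section 3 (levels alpha): weights and cells
-/

set_option autoImplicit false

open Finset

namespace Pool.MPbe0380.Gb

variable {p : ℕ} [Fact p.Prime]

/-- the angle and the distance to the nearest integer -/
theorem al_th (a l : ZMod p) : |th a l| = 2 * Real.pi * nrm (a * l) := by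
  have hp0 : (0 : ℝ) < p := by exact_mod_cast (Fact.out : p.Prime).pos
  set j : ℤ := (a * l).valMinAbs with hj
  have hjc : ((j : ℤ) : ZMod p) = a * l := ZMod.coe_valMinAbs _
  have hmem : j * 2 ∈ Set.Ioc (-(p : ℤ)) p := ZMod.valMinAbs_mem_Ioc (a * l)
  have hm1 : (-(p : ℝ)) < (j : ℝ) * 2 := by exact_mod_cast hmem.1
  have hm2 : (j : ℝ) * 2 ≤ (p : ℝ) := by exact_mod_cast hmem.2
  have hz : z a l = Complex.exp (((2 * Real.pi * (j : ℝ) / p : ℝ) : ℂ) * Complex.I) := by
    have h1 : z a l = ZMod.stdAddChar ((j : ℤ) : ZMod p) := by rw [hjc]; rfl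
    rw [h1, ZMod.stdAddChar_coe]
    congr 1
    push_cast
    ring
  have hpi := Real.pi_pos
  have hth : th a l = 2 * Real.pi * (j : ℝ) / p := by
    refine th_of_exp hz ⟨?_, ?_⟩
    · rw [lt_div_iff₀ hp0]
      nlinarith
    · rw [div_le_iff₀ hp0]
      nlinarith
  rw [hth, abs_div, abs_mul, abs_of_pos (show (0 : ℝ) < 2 * Real.pi by positivity),
    abs_of_pos hp0]
  unfold nrm
  rw [← hj]
  have h2 : ((j.natAbs : ℕ) : ℝ) = |(j : ℝ)| := by
    rw [Nat.cast_natAbs, Int.cast_abs]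
  rw [h2]
  ring

namespace Lev

variable (v : Lev p)

theorem al_mem_supp {x : ZMod p} (hx : x ∈ v.supp) : x ∈ v.A ∧ 0 < v.J x := by
  classical
  unfold supp at hx
  exact mem_filter.1 hx

theorem al_sum_supp : ∑ x ∈ v.supp, v.J x = v.m := by
  classical
  unfold supp m
  rw [sum_filter, ← sum_subset (subset_univ v.A)]
  · refine sum_congr rfl fun x _ => ?_
    by_cases hx : 0 < v.J x
    · rw [if_pos hx]
    · rw [if_neg hx]
      exact (le_antisymm (not_lt.mp hx) (v.J_nonneg x)).symm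
  · intro x _ hx
    exact v.J_supp x hx

/-- the bound for the weight of the points which feel a given point -/
noncomputable def alW : ℝ := 4 * Real.log (2 / v.L) / (1 / 10 ^ 6) + 2 / ((1 / 100) ^ 2 * v.L)

open Classical in
theorem al_weight {c : ZMod p} (hc : c ∈ v.A) :
    ∑ x ∈ v.supp.filter (fun x => v.Feel x c), v.J x ≤ v.alW := by
  have hL := v.L_pos
  have hL8 := v.L_le
  have h1 := v.weight_u hc (g := 1 / 10 ^ 6) (by
    have : 16 * v.L ≤ 16 * (1 / 10 ^ 8) := by linarith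
    refine this.trans ?_
    norm_num) (by norm_num)
  have h2 := v.weight_s hc (g := 1 / 100) (by norm_num)
  have hsub : v.supp.filter (fun x => v.Feel x c) ⊆
      v.supp.filter (fun x => 1 / 10 ^ 6 * v.L ≤ v.E (fun l => u x l * u c l)) ∪
      v.supp.filter (fun x => 1 / 100 * v.L ≤ |v.E (fun l => s x l * s c l)|) := by
    intro x hx
    obtain ⟨hxs, hF⟩ := mem_filter.1 hx
    rw [mem_union, mem_filter, mem_filter]
    rcases hF with h | h
    · exact Or.inl ⟨hxs, h⟩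
    · by_cases h3 : 1 / 10 ^ 6 * v.L ≤ v.E (fun l => u x l * u c l)
      · exact Or.inl ⟨hxs, h3⟩
      · right
        refine ⟨hxs, ?_⟩
        rw [not_le] at h3
        have h4 : 0 ≤ v.E (fun l => u x l * u c l) :=
          v.al_E_nonneg fun l => mul_nonneg (u_nonneg _ _) (u_nonneg _ _)
        unfold f at h
        rw [abs_div, abs_of_pos (show 0 < 2 * v.L by positivity), le_div_iff₀ (by positivity)] at h
        have h5 := abs_add_le (v.E (fun l => u x l * u c l)) (v.E (fun l => s x l * s c l))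
        rw [abs_of_nonneg h4] at h5
        linarith
  have hJ : ∀ x, 0 ≤ v.J x := v.J_nonneg
  calc ∑ x ∈ v.supp.filter (fun x => v.Feel x c), v.J x
      ≤ ∑ x ∈ v.supp.filter (fun x => 1 / 10 ^ 6 * v.L ≤ v.E (fun l => u x l * u c l)) ∪
          v.supp.filter (fun x => 1 / 100 * v.L ≤ |v.E (fun l => s x l * s c l)|), v.J x :=
        sum_le_sum_of_subset_of_nonneg hsub fun x _ _ => hJ x
    _ ≤ ∑ x ∈ v.supp.filter (fun x => 1 / 10 ^ 6 * v.L ≤ v.E (fun l => u x l * u c l)), v.J x +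
          ∑ x ∈ v.supp.filter (fun x => 1 / 100 * v.L ≤ |v.E (fun l => s x l * s c l)|), v.J x := by
        rw [← sum_union_inter]
        exact le_add_of_nonneg_right (sum_nonneg fun x _ => hJ x)
    _ ≤ _ := add_le_add h1 h2

open Classical in
/-- `X_0(x)` -/
noncomputable def alX (x : ZMod p) : Finset (ZMod p) := v.A.filter (fun c => v.dist (c - x) ≤ 1 / 2)

theorem al_mem_X {x c : ZMod p} : c ∈ v.alX x ↔ c ∈ v.A ∧ v.dist (c - x) ≤ 1 / 2 := by
  classical
  unfold alX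
  rw [mem_filter]

theorem al_feel_X {x c : ZMod p} (hx : x ∈ v.supp) (hc : c ∈ v.alX x) : v.Feel x c := by
  obtain ⟨hcA, hcd⟩ := v.al_mem_X.1 hc
  have hL := v.L_pos
  right
  have h1 := v.f_formula hx c
  have h2 := v.al_dist_sq (c - x)
  have h3 := v.al_dist_sq c
  have h4 := v.dist_add c (x - c)
  rw [add_sub_cancel] at h4
  have h5 : v.dist (x - c) = v.dist (c - x) := by rw [← v.dist_neg, neg_sub]
  have h6 : v.dist x = 1 := by
    unfold dist
    have : v.E (u x) = v.L := v.kkt_eq x (v.al_mem_supp hx).2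
    rw [this, div_self hL.ne', Real.sqrt_one]
  rw [h5, h6] at h4
  have h7 : 0 ≤ v.dist (c - x) := Real.sqrt_nonneg _
  have h8 : 1 / 2 ≤ v.dist c := by linarith
  have h9 : v.dist (c - x) ^ 2 ≤ 1 / 4 := by nlinarith
  have h10 : 1 / 4 ≤ v.dist c ^ 2 := by nlinarith
  have h11 : 1 / 2 ≤ v.f x c := by
    have h12 : v.L ≤ 2 * v.L * v.f x c := by
      rw [h1, h2, h3]
      nlinarith
    by_contra hcon
    rw [not_le] at hcon
    nlinarith
  exact le_trans (by norm_num) (h11.trans (le_abs_self _))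

open Classical in
theorem al_mass (h : ℝ) :
    (∑ x ∈ v.supp.filter (fun x => h < ((v.alX x).card : ℝ)), v.J x) * h ≤
      (v.A.card : ℝ) * v.alW := by
  have hJ : ∀ x, 0 ≤ v.J x := v.J_nonneg
  calc (∑ x ∈ v.supp.filter (fun x => h < ((v.alX x).card : ℝ)), v.J x) * h
      = ∑ x ∈ v.supp.filter (fun x => h < ((v.alX x).card : ℝ)), v.J x * h := by rw [sum_mul]
    _ ≤ ∑ x ∈ v.supp.filter (fun x => h < ((v.alX x).card : ℝ)), v.J x * ((v.alX x).card : ℝ) :=
        sum_le_sum fun x hx => mul_le_mul_of_nonneg_left (mem_filter.1 hx).2.le (hJ x)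
    _ ≤ ∑ x ∈ v.supp, v.J x * ((v.alX x).card : ℝ) :=
        sum_le_sum_of_subset_of_nonneg (filter_subset _ _)
          fun x _ _ => mul_nonneg (hJ x) (Nat.cast_nonneg _)
    _ = ∑ x ∈ v.supp, ∑ c ∈ v.A, if c ∈ v.alX x then v.J x else 0 := by
        refine sum_congr rfl fun x _ => ?_
        rw [← sum_filter, sum_const, nsmul_eq_mul, mul_comm]
        congr 2
        have : v.A.filter (fun c => c ∈ v.alX x) = v.alX x := by
          ext c
          rw [mem_filter]
          exact ⟨fun h => h.2, fun h => ⟨(v.al_mem_X.1 h).1, h⟩⟩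
        rw [this]
    _ = ∑ c ∈ v.A, ∑ x ∈ v.supp, if c ∈ v.alX x then v.J x else 0 := sum_comm
    _ ≤ ∑ c ∈ v.A, v.alW := by
        refine sum_le_sum fun c hc => ?_
        rw [← sum_filter]
        refine le_trans ?_ (v.al_weight hc)
        refine sum_le_sum_of_subset_of_nonneg ?_ fun x _ _ => hJ x
        intro x hx
        obtain ⟨h1, h2⟩ := mem_filter.1 hx
        exact mem_filter.2 ⟨h1, v.al_feel_X h1 h2⟩
    _ = _ := by rw [sum_const, nsmul_eq_mul]

open Classical in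
theorem al_pairs (G0 : Finset (ZMod p)) (hG0 : G0 ⊆ v.supp) (hW : 0 ≤ v.alW) :
    ∑ e ∈ (G0 ×ˢ G0).filter (fun e => ¬ ∀ c ∈ v.A, v.Feel e.1 c → ¬ v.Feel e.2 c),
      v.J e.1 * v.J e.2 ≤ (v.A.card : ℝ) * v.alW ^ 2 := by
  have hJ : ∀ x, 0 ≤ v.J x := v.J_nonneg
  have hJJ : ∀ e : ZMod p × ZMod p, 0 ≤ v.J e.1 * v.J e.2 := fun e => mul_nonneg (hJ _) (hJ _)
  have h1 : ∀ e ∈ G0 ×ˢ G0, (if ¬ ∀ c ∈ v.A, v.Feel e.1 c → ¬ v.Feel e.2 c then v.J e.1 * v.J e.2
      else 0) ≤ ∑ c ∈ v.A, (if v.Feel e.1 c then v.J e.1 else 0) * (if v.Feel e.2 c then v.J e.2 else 0) := by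
    intro e _
    have hnn : ∀ c ∈ v.A, 0 ≤ (if v.Feel e.1 c then v.J e.1 else 0) *
        (if v.Feel e.2 c then v.J e.2 else 0) := by
      intro c _
      refine mul_nonneg ?_ ?_
      · split_ifs
        · exact hJ _
        · exact le_rfl
      · split_ifs
        · exact hJ _
        · exact le_rfl
    by_cases h : ∀ c ∈ v.A, v.Feel e.1 c → ¬ v.Feel e.2 c
    · rw [if_neg (not_not.2 h)]
      exact sum_nonneg hnn
    · rw [if_pos h]
      push Not at h
      obtain ⟨c, hc, h1, h2⟩ := h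
      refine le_trans (le_of_eq ?_) (single_le_sum hnn hc)
      rw [if_pos h1, if_pos h2]
  rw [sum_filter]
  calc ∑ e ∈ G0 ×ˢ G0, (if ¬ ∀ c ∈ v.A, v.Feel e.1 c → ¬ v.Feel e.2 c then v.J e.1 * v.J e.2 else 0)
      ≤ ∑ e ∈ G0 ×ˢ G0, ∑ c ∈ v.A, (if v.Feel e.1 c then v.J e.1 else 0) *
        (if v.Feel e.2 c then v.J e.2 else 0) := sum_le_sum h1
    _ = ∑ c ∈ v.A, ∑ e ∈ G0 ×ˢ G0, (if v.Feel e.1 c then v.J e.1 else 0) *
        (if v.Feel e.2 c then v.J e.2 else 0) := sum_comm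
    _ = ∑ c ∈ v.A, (∑ x ∈ G0, if v.Feel x c then v.J x else 0) *
        (∑ x ∈ G0, if v.Feel x c then v.J x else 0) := by
        refine sum_congr rfl fun c _ => ?_
        rw [sum_mul_sum, sum_product]
    _ ≤ ∑ c ∈ v.A, v.alW ^ 2 := by
        refine sum_le_sum fun c hc => ?_
        have h2 : ∑ x ∈ G0, (if v.Feel x c then v.J x else 0) ≤ v.alW := by
          rw [← sum_filter]
          refine le_trans ?_ (v.al_weight hc)
          exact sum_le_sum_of_subset_of_nonneg (filter_subset_filter _ hG0) fun x _ _ => hJ x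
        have h3 : 0 ≤ ∑ x ∈ G0, (if v.Feel x c then v.J x else 0) := by
          refine sum_nonneg fun x _ => ?_
          split_ifs
          · exact hJ _
          · exact le_rfl
        rw [sq]
        exact mul_le_mul h2 h2 h3 hW
    _ = _ := by rw [sum_const, nsmul_eq_mul]

/-- the knowledge of (S6) -/
theorem al_base (x : ZMod p) (b : ℕ) : ∃ F : Setoid (ZMod p),
    v.cost F ≤ ((v.alX x).card : ℝ) * ((b : ℝ) + 3) ∧
    ∀ c ∈ v.alX x, ∀ c' ∈ v.alX x, N F (c - c') ≤ (1 / 2 : ℝ) ^ b := by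
  classical
  set E : Finset (ZMod p × ℕ) := (v.alX x).image (fun c => (c, b + 1)) with hE
  refine ⟨lst E, ?_, ?_⟩
  · refine (v.cost_lst E).trans ?_
    have h1 : ∑ e ∈ E, ((e.2 : ℝ) + 2) = (E.card : ℝ) * ((b : ℝ) + 3) := by
      rw [← nsmul_eq_mul, ← sum_const]
      refine sum_congr rfl fun e he => ?_
      obtain ⟨c, -, rfl⟩ := mem_image.1 he
      push_cast
      ring
    rw [h1]
    refine mul_le_mul_of_nonneg_right ?_ (by positivity)
    exact_mod_cast card_image_le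
  · intro c hc c' hc'
    have h1 := N_lst E (c, b + 1) (mem_image_of_mem _ hc)
    have h2 := N_lst E (c', b + 1) (mem_image_of_mem _ hc')
    have h3 := N_add (lst E) c (-c')
    rw [N_neg, ← sub_eq_add_neg] at h3
    refine h3.trans ?_
    refine (add_le_add h1 h2).trans (le_of_eq ?_)
    show (1 / 2 : ℝ) ^ (b + 1) + (1 / 2 : ℝ) ^ (b + 1) = _
    rw [pow_succ]
    ring

theorem al_nrm_le (F : Setoid (ZMod p)) {l l' : ZMod p} (h : F.r l l') (g : ZMod p) :
    nrm (g * (l - l')) ≤ N F g := by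
  classical
  unfold N
  exact le_sup' (f := fun e : ZMod p × ZMod p => nrm (g * (e.1 - e.2))) (b := (l, l'))
    (mem_filter.2 ⟨mem_univ _, h⟩)

/-- lifts from two knowledges of small cost -/
theorem al_lift (x y : ZMod p) (X Y : Finset (ZMod p)) (hx : x ∈ X) (hy : y ∈ Y)
    (F F' : Setoid (ZMod p)) (hcost : v.cost F + v.cost F' < v.D)
    (hF : ∀ c ∈ X, ∀ c' ∈ X, N F (c - c') ≤ 1 / 16) (hF' : ∀ c ∈ Y, ∀ c' ∈ Y, N F' (c - c') ≤ 1 / 16) :
    ∃ ψ ψ' : ZMod p → ℝ, Set.InjOn ψ X ∧ Set.InjOn ψ' Y ∧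
      ∀ q q' z, q ∈ X → q - z ∈ X → q' ∈ Y → q' + z ∈ Y →
        ψ q + ψ' q' = ψ (q - z) + ψ' (q' + z) := by
  have h1 : cent (om v.I) (F ⊓ F') ≤ v.cost F + v.cost F' :=
    cent_inf _ (om_pos _) (isLaw_om _).2 F F'
  have h2 := v.pd
  have h3 : F ⊓ F' ≠ ⊥ := by
    intro h
    rw [h, cent_bot _ (om_pos _) (isLaw_om _).2] at h1
    linarith
  obtain ⟨l, l', hl, hne⟩ : ∃ l l', (F ⊓ F').r l l' ∧ l ≠ l' := by
    by_contra hcon
    push Not at hcon
    apply h3
    rw [eq_bot_iff]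
    intro a b hab
    exact hcon a b hab
  have hl1 : F.r l l' := (Setoid.inf_def ▸ hl : _ ∧ _).1
  have hl2 : F'.r l l' := (Setoid.inf_def ▸ hl : _ ∧ _).2
  have hpi := Real.pi_pos
  refine lift_of_mu (μ := l - l') (sub_ne_zero.2 hne) x y X Y ?_ ?_
  · intro c hc
    have := (al_nrm_le F hl1 (c - x)).trans (hF c hc x hx)
    rw [al_th]
    nlinarith
  · intro c hc
    have := (al_nrm_le F' hl2 (c - y)).trans (hF' c hc y hy)
    rw [al_th]
    nlinarith

end Lev

end Pool.MPbe0380.Gb
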